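import Mathlib
import Pool.Agent.R975.MM.Main

/-! Noisy min-max game on the `d`-ary tree: disagreement of successive values. -/

set_option autoImplicit false

namespace Pool.Agent.R975.AS

open Set Filter Topology MeasureTheory ProbabilityTheory
open Pool.Agent.R975.MM (uu O)

/-- Value of the vertex `v` when `m` levels remain below it. -/
noncomputable def val {d : ℕ} (x : List (Fin d) → ℤ) : ℕ → List (Fin d) → ℤ
  | 0, _ => 0
  | m + 1, v =>
    if Even v.length then ⨆ c : Fin d, (x (c :: v) + val x m (c :: v))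
    else ⨅ c : Fin d, (x (c :: v) + val x m (c :: v))

section

variable {d : ℕ}

/-- the finite set of coordinates on which `val x m v` depends -/
def Tr (d : ℕ) : ℕ → List (Fin d) → Finset (List (Fin d))
  | 0, _ => ∅
  | m + 1, v => Finset.univ.biUnion fun c : Fin d => insert (c :: v) (Tr d m (c :: v))

lemma mem_Tr (m : ℕ) : ∀ (v u : List (Fin d)), u ∈ Tr d m v → ∃ w, w ≠ [] ∧ u = w ++ v := by
  induction m with
  | zero =>
    intro v u hu
    simp [Tr] at hu
  | succ m ih =>
    intro v u hu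
    simp only [Tr, Finset.mem_biUnion, Finset.mem_univ, true_and, Finset.mem_insert] at hu
    obtain ⟨c, h | h⟩ := hu
    · exact ⟨[c], by simp, by simp [h]⟩
    · obtain ⟨w, hw, rfl⟩ := ih _ _ h
      exact ⟨w ++ [c], by simp, by simp⟩

lemma self_notMem (m : ℕ) (v : List (Fin d)) : v ∉ Tr d m v := by
  intro h
  obtain ⟨w, hw, hv⟩ := mem_Tr m v _ h
  have := congrArg List.length hv
  simp at this
  exact hw this

/-- the coordinates of the branch through the child `c` -/
def Br (d m : ℕ) (v : List (Fin d)) (c : Fin d) : Finset (List (Fin d)) :=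
  insert (c :: v) (Tr d m (c :: v))

lemma mem_Br (m : ℕ) (v : List (Fin d)) (c : Fin d) (u : List (Fin d)) (h : u ∈ Br d m v c) :
    ∃ w, u = w ++ c :: v := by
  rcases Finset.mem_insert.1 h with rfl | h
  · exact ⟨[], rfl⟩
  · obtain ⟨w, -, hw⟩ := mem_Tr m _ u h
    exact ⟨w, hw⟩

lemma Br_disj (m m' : ℕ) (v : List (Fin d)) {c c' : Fin d} (hc : c ≠ c') :
    Disjoint (Br d m v c) (Br d m' v c') := by
  rw [Finset.disjoint_left]
  intro u h1 h2
  obtain ⟨w, hw⟩ := mem_Br m v c u h1
  obtain ⟨w', hw'⟩ := mem_Br m' v c' u h2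
  rw [hw] at hw'
  have := (List.append_inj' hw' (by simp)).2
  simp only [List.cons.injEq, and_true] at this
  exact hc this

lemma val_congr (x x' : List (Fin d) → ℤ) (m : ℕ) : ∀ v, (∀ u ∈ Tr d m v, x u = x' u) →
    val x m v = val x' m v := by
  induction m with
  | zero => intro v _; rfl
  | succ m ih =>
    intro v hv
    have h1 : ∀ c : Fin d, x (c :: v) + val x m (c :: v) =
        x' (c :: v) + val x' m (c :: v) := by
      intro c
      rw [ih (c :: v) fun u hu => hv u ?_, hv (c :: v) ?_]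
      · simp only [Tr, Finset.mem_biUnion, Finset.mem_univ, true_and, Finset.mem_insert]
        exact ⟨c, Or.inl rfl⟩
      · simp only [Tr, Finset.mem_biUnion, Finset.mem_univ, true_and, Finset.mem_insert]
        exact ⟨c, Or.inr hu⟩
    simp only [val, h1]

/-- dependence of an event on a finite set of coordinates -/
def DepS (S : Finset (List (Fin d))) (A : Set (List (Fin d) → ℤ)) : Prop :=
  ∀ x x', (∀ u ∈ S, x u = x' u) → x ∈ A → x' ∈ A

open Classical in
/-- extension by zero -/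
noncomputable def ext0 (S : Finset (List (Fin d))) (y : S → ℤ) : List (Fin d) → ℤ :=
  fun u => if h : u ∈ S then y ⟨u, h⟩ else 0

lemma depS_eq {S : Finset (List (Fin d))} {A : Set (List (Fin d) → ℤ)} (hA : DepS S A) :
    A = (fun (x : List (Fin d) → ℤ) (i : S) => x i) ⁻¹' {y | ext0 S y ∈ A} := by
  ext x
  have h1 : ∀ u ∈ S, x u = ext0 S (fun i : S => x i) u := by
    intro u hu
    simp [ext0, hu]
  exact ⟨fun h => hA _ _ h1 h, fun h => hA _ _ (fun u hu => (h1 u hu).symm) h⟩

lemma depS_meas {S : Finset (List (Fin d))} {A : Set (List (Fin d) → ℤ)} (hA : DepS S A) :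
    MeasurableSet A := by
  rw [depS_eq hA]
  exact (measurable_pi_lambda _ fun i => measurable_pi_apply _) (MeasurableSet.of_discrete)

lemma depS_mono {S T : Finset (List (Fin d))} (hST : S ⊆ T) {A : Set (List (Fin d) → ℤ)}
    (hA : DepS S A) : DepS T A := fun x x' h hx => hA x x' (fun u hu => h u (hST hu)) hx

lemma depS_inter {S : Finset (List (Fin d))} {A B : Set (List (Fin d) → ℤ)} (hA : DepS S A)
    (hB : DepS S B) : DepS S (A ∩ B) := fun x x' h hx => ⟨hA x x' h hx.1, hB x x' h hx.2⟩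

lemma depS_compl {S : Finset (List (Fin d))} {A : Set (List (Fin d) → ℤ)} (hA : DepS S A) :
    DepS S Aᶜ :=
  fun x x' h hx hx' => hx (hA x' x (fun u hu => (h u hu).symm) hx')

lemma depS_finset {T : Finset (Fin d)} {S : Fin d → Finset (List (Fin d))}
    {A : Fin d → Set (List (Fin d) → ℤ)}
    (hA : ∀ c, DepS (S c) (A c)) : DepS (T.biUnion S) (⋂ c ∈ T, A c) := by
  intro x x' h hx
  simp only [mem_iInter] at hx ⊢
  intro c hc
  exact hA c x x' (fun u hu => h u (Finset.mem_biUnion.2 ⟨c, hc, hu⟩)) (hx c hc)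

lemma depS_val (m : ℕ) (v : List (Fin d)) (i : ℤ) : DepS (Tr d m v) {x | val x m v ≤ i} := by
  intro x x' h hx
  have := val_congr x x' m v h
  simp only [Set.mem_setOf_eq] at hx ⊢
  rw [← this]; exact hx

lemma depS_coord (u : List (Fin d)) (i : ℤ) : DepS {u} {x | x u = i} := by
  intro x x' h hx
  have := h u (Finset.mem_singleton_self u)
  simp only [Set.mem_setOf_eq] at hx ⊢
  rw [← this]; exact hx

/-- the event that the cookie plus the value of the child `c` of `v` is at most `i` -/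
def Ev (m : ℕ) (v : List (Fin d)) (i : ℤ) (c : Fin d) : Set (List (Fin d) → ℤ) :=
  {x | x (c :: v) + val x m (c :: v) ≤ i}

lemma depS_Ev (m : ℕ) (v : List (Fin d)) (i : ℤ) (c : Fin d) :
    DepS (Br d m v c) (Ev m v i c) := by
  intro x x' h hx
  have h1 := h _ (Finset.mem_insert_self _ _)
  have h2 := val_congr x x' m (c :: v) fun u hu => h u (Finset.mem_insert_of_mem hu)
  unfold Ev at hx ⊢
  simp only [Set.mem_setOf_eq] at hx ⊢
  rw [← h1, ← h2]; exact hx

lemma val_even (hd : 1 ≤ d) (m : ℕ) (v : List (Fin d)) (hv : Even v.length) (i : ℤ) :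
    {x | val x (m + 1) v ≤ i} = ⋂ c ∈ (Finset.univ : Finset (Fin d)), Ev m v i c := by
  ext x
  simp only [Set.mem_setOf_eq, val, if_pos hv, MM.sup_le_iff' hd, mem_iInter,
    Finset.mem_univ, forall_true_left, Ev]

lemma val_odd (hd : 1 ≤ d) (m : ℕ) (v : List (Fin d)) (hv : ¬ Even v.length) (i : ℤ) :
    {x | val x (m + 1) v ≤ i} = (⋂ c ∈ (Finset.univ : Finset (Fin d)), (Ev m v i c)ᶜ)ᶜ := by
  ext x
  simp only [Set.mem_setOf_eq, val, if_neg hv, MM.inf_le_iff' hd, mem_iInter,
    Finset.mem_univ, forall_true_left, mem_compl_iff, not_forall, not_not, Ev]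

section prob

variable {Ω : Type*} [MeasurableSpace Ω] (P : Measure Ω) [IsProbabilityMeasure P]
  (X : List (Fin d) → Ω → ℤ)

/-- probability of an event on the cookies -/
noncomputable def pr (A : Set (List (Fin d) → ℤ)) : ℝ := P.real {ω | (fun u => X u ω) ∈ A}

/-- the cookies are independent and uniform on `{-1, 1}` -/
structure Cookies : Prop where
  meas : ∀ v, Measurable (X v)
  indep : iIndepFun X P
  law : ∀ v, P.real {ω | X v ω = 1} = 1 / 2 ∧ P.real {ω | X v ω = -1} = 1 / 2

variable {P X}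

lemma ev_meas (h : Cookies P X) {A : Set (List (Fin d) → ℤ)} (hA : MeasurableSet A) :
    MeasurableSet {ω | (fun u => X u ω) ∈ A} :=
  (measurable_pi_lambda _ fun i => h.meas i) hA

omit [IsProbabilityMeasure P] in
lemma depS_prod (h : Cookies P X) {S T : Finset (List (Fin d))} (hST : Disjoint S T)
    {A B : Set (List (Fin d) → ℤ)}
    (hA : DepS S A) (hB : DepS T B) : pr P X (A ∩ B) = pr P X A * pr P X B := by
  have h1 := h.indep.indepFun_finset S T hST h.meas
  have h2 := h1.measure_inter_preimage_eq_mul {y | ext0 S y ∈ A} {y | ext0 T y ∈ B}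
    MeasurableSet.of_discrete MeasurableSet.of_discrete
  have h3 := congrArg ENNReal.toReal h2
  rw [ENNReal.toReal_mul] at h3
  have e1 : {ω | (fun u => X u ω) ∈ A} =
      (fun ω (i : S) => X i ω) ⁻¹' {y | ext0 S y ∈ A} := by
    conv_lhs => rw [depS_eq hA]
    rfl
  have e2 : {ω | (fun u => X u ω) ∈ B} =
      (fun ω (i : T) => X i ω) ⁻¹' {y | ext0 T y ∈ B} := by
    conv_lhs => rw [depS_eq hB]
    rfl
  have e3 : {ω | (fun u => X u ω) ∈ A ∩ B} =
      {ω | (fun u => X u ω) ∈ A} ∩ {ω | (fun u => X u ω) ∈ B} := rfl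
  unfold pr
  rw [e3, e1, e2]
  exact h3

lemma prod_finset (h : Cookies P X) {S : Fin d → Finset (List (Fin d))}
    (hS : ∀ c c', c ≠ c' → Disjoint (S c) (S c'))
    {A : Fin d → Set (List (Fin d) → ℤ)} (hA : ∀ c, DepS (S c) (A c))
    (T : Finset (Fin d)) : pr P X (⋂ c ∈ T, A c) = ∏ c ∈ T, pr P X (A c) := by
  induction T using Finset.induction_on with
  | empty => simp [pr]
  | insert c T hc ih =>
    rw [Finset.prod_insert hc, ← ih, Finset.set_biInter_insert]
    refine depS_prod h ?_ (hA c) (depS_finset hA)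
    rw [Finset.disjoint_biUnion_right]
    intro c' hc'
    exact hS c c' fun h => hc (h ▸ hc')

lemma pr_compl (h : Cookies P X) {A : Set (List (Fin d) → ℤ)} (hA : MeasurableSet A) :
    pr P X Aᶜ = 1 - pr P X A := by
  unfold pr
  rw [← probReal_compl_eq_one_sub (ev_meas h hA)]
  rfl

lemma pr_le_one (A : Set (List (Fin d) → ℤ)) : pr P X A ≤ 1 := measureReal_le_one

lemma pr_nonneg (A : Set (List (Fin d) → ℤ)) : 0 ≤ pr P X A := measureReal_nonneg

lemma pr_mono {A B : Set (List (Fin d) → ℤ)} (hAB : A ⊆ B) : pr P X A ≤ pr P X B :=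
  measureReal_mono fun _ hω => hAB hω

/-- conditioning on a cookie -/
lemma cookie_mix (h : Cookies P X) {T : Finset (List (Fin d))} {v : List (Fin d)} (hv : v ∉ T)
    {E : ℤ → Set (List (Fin d) → ℤ)} (hE : ∀ j, DepS T (E j)) (i : ℤ) :
    pr P X {x | x ∈ E (i - x v)} = (pr P X (E (i - 1)) + pr P X (E (i + 1))) / 2 := by
  obtain ⟨h1, h2⟩ := h.law v
  have hprod : ∀ (c : ℤ), pr P X ({x | x v = c} ∩ E (i - c)) =
      pr P X {x | x v = c} * pr P X (E (i - c)) := fun c =>
    depS_prod h (Finset.disjoint_singleton_left.2 hv) (depS_coord _ c) (hE _)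
  have hm1 : MeasurableSet {ω | X v ω = 1} := ev_meas h (depS_meas (depS_coord v 1))
  have hm2 : MeasurableSet {ω | X v ω = -1} := ev_meas h (depS_meas (depS_coord v (-1)))
  have hdisj : Disjoint {ω | X v ω = 1} {ω | X v ω = -1} := by
    rw [Set.disjoint_left]
    intro x h1 h2
    have h1' : X v x = 1 := h1
    have h2' : X v x = -1 := h2
    omega
  have hfull : P.real ({ω | X v ω = 1} ∪ {ω | X v ω = -1})ᶜ = 0 := by
    rw [probReal_compl_eq_one_sub (hm1.union hm2), measureReal_union hdisj hm2, h1, h2]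
    norm_num
  set Z := {ω | (fun u => X u ω) ∈ E (i - X v ω)} with hZ
  have e0 : pr P X {x | x ∈ E (i - x v)} = P.real Z := rfl
  have e1 : P.real Z = P.real (Z ∩ ({ω | X v ω = 1} ∪ {ω | X v ω = -1})) := by
    have h3 := measureReal_inter_add_sdiff (μ := P) (s := Z) (hm1.union hm2)
    have h4 : P.real (Z \ ({ω | X v ω = 1} ∪ {ω | X v ω = -1})) = 0 := by
      refine le_antisymm ?_ measureReal_nonneg
      rw [← hfull]
      exact measureReal_mono fun ω hω => hω.2
    linarith
  have e2 : Z ∩ ({ω | X v ω = 1} ∪ {ω | X v ω = -1}) =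
      {ω | (fun u => X u ω) ∈ ({x | x v = 1} ∩ E (i - 1))} ∪
      {ω | (fun u => X u ω) ∈ ({x | x v = -1} ∩ E (i - (-1)))} := by
    ext ω
    simp only [hZ, mem_inter_iff, mem_union, Set.mem_setOf_eq]
    constructor
    · rintro ⟨h3, h4 | h4⟩
      · left; exact ⟨h4, by rw [h4] at h3; exact h3⟩
      · right; exact ⟨h4, by rw [h4] at h3; exact h3⟩
    · rintro (⟨h3, h4⟩ | ⟨h3, h4⟩)
      · exact ⟨by rw [h3]; exact h4, Or.inl h3⟩
      · exact ⟨by rw [h3]; exact h4, Or.inr h3⟩
  have hm3 : MeasurableSet {ω | (fun u => X u ω) ∈ ({x | x v = -1} ∩ E (i - (-1)))} :=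
    ev_meas h ((depS_meas (depS_coord v (-1))).inter (depS_meas (hE _)))
  have hd2 : Disjoint {ω | (fun u => X u ω) ∈ ({x | x v = 1} ∩ E (i - 1))}
      {ω | (fun u => X u ω) ∈ ({x | x v = -1} ∩ E (i - (-1)))} :=
    hdisj.mono (fun ω hω => hω.1) (fun ω hω => hω.1)
  rw [e0, e1, e2, measureReal_union hd2 hm3]
  have a1 := hprod 1
  have a2 := hprod (-1)
  unfold pr at a1 a2 ⊢
  rw [a1, a2]
  have b1 : P.real {ω | (fun u => X u ω) ∈ {x : List (Fin d) → ℤ | x v = 1}} = 1 / 2 := h1
  have b2 : P.real {ω | (fun u => X u ω) ∈ {x : List (Fin d) → ℤ | x v = -1}} = 1 / 2 := h2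
  rw [b1, b2, sub_neg_eq_add]
  ring

/-- distribution function of the value of `v` -/
noncomputable def cd (P : Measure Ω) (X : List (Fin d) → Ω → ℤ) (m : ℕ) (v : List (Fin d))
    (i : ℤ) : ℝ := pr P X {x | val x m v ≤ i}

lemma pr_Ev (h : Cookies P X) (m : ℕ) (v : List (Fin d)) (i : ℤ) (c : Fin d) :
    pr P X (Ev m v i c) = (cd P X m (c :: v) (i - 1) + cd P X m (c :: v) (i + 1)) / 2 := by
  have h1 := cookie_mix h (self_notMem m (c :: v)) (E := fun j => {x | val x m (c :: v) ≤ j})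
    (fun j => depS_val m (c :: v) j) i
  have e : Ev m v i c = {x | x ∈ (fun j => {x | val x m (c :: v) ≤ j}) (i - x (c :: v))} := by
    ext x
    simp only [Ev, Set.mem_setOf_eq]
    constructor <;> intro h <;> linarith
  rw [e, h1]
  rfl

/-- the recursion of the distribution functions -/
noncomputable def G (d : ℕ) : ℕ → Bool → ℤ → ℝ
  | 0, _, i => if i < 0 then 0 else 1
  | m + 1, true, i => ((G d m false (i - 1) + G d m false (i + 1)) / 2) ^ d
  | m + 1, false, i => 1 - (1 - (G d m true (i - 1) + G d m true (i + 1)) / 2) ^ d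

lemma cd_even (hd : 1 ≤ d) (h : Cookies P X) (m : ℕ) (v : List (Fin d)) (hv : Even v.length)
    (i : ℤ) : cd P X (m + 1) v i = ∏ c, pr P X (Ev m v i c) := by
  unfold cd
  rw [val_even hd m v hv, prod_finset h (fun c c' hc => Br_disj m m v hc)
    (fun c => depS_Ev m v i c)]

lemma cd_odd (hd : 1 ≤ d) (h : Cookies P X) (m : ℕ) (v : List (Fin d)) (hv : ¬ Even v.length)
    (i : ℤ) : cd P X (m + 1) v i = 1 - ∏ c, (1 - pr P X (Ev m v i c)) := by
  unfold cd
  have hdep : ∀ c : Fin d, DepS (Br d m v c) (Ev m v i c)ᶜ := fun c =>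
    depS_compl (depS_Ev m v i c)
  rw [val_odd hd m v hv, pr_compl h (depS_meas (depS_finset hdep)),
    prod_finset h (fun c c' hc => Br_disj m m v hc) hdep]
  simp only [fun c : Fin d => pr_compl h (depS_meas (depS_Ev m v i c))]

lemma cd_eq (hd : 1 ≤ d) (h : Cookies P X) (m : ℕ) :
    ∀ (v : List (Fin d)) (i : ℤ), cd P X m v i = G d m (decide (Even v.length)) i := by
  induction m with
  | zero =>
    intro v i
    unfold cd pr
    simp only [val, G]
    by_cases hi : i < 0
    · have : ¬ (0 ≤ i) := by omega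
      simp [hi, this]
    · have : 0 ≤ i := by omega
      simp [hi, this]
  | succ m ih =>
    intro v i
    by_cases hv : Even v.length
    · have hdd : ∀ c : Fin d, decide (Even (c :: v).length) = false := by
        intro c
        simp only [List.length_cons, decide_eq_false_iff_not]
        rw [Nat.even_add_one]
        simpa using hv
      have hd2 : decide (Even v.length) = true := by simpa using hv
      rw [hd2, cd_even hd h m v hv]
      simp only [pr_Ev h, ih, hdd, Finset.prod_const, Finset.card_univ, Fintype.card_fin]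
      rfl
    · have hdd : ∀ c : Fin d, decide (Even (c :: v).length) = true := by
        intro c
        simp only [List.length_cons, decide_eq_true_eq]
        rw [Nat.even_add_one]
        exact hv
      have hd2 : decide (Even v.length) = false := by simpa using hv
      rw [hd2, cd_odd hd h m v hv]
      simp only [pr_Ev h, ih, hdd, Finset.prod_const, Finset.card_univ, Fintype.card_fin]
      rfl

lemma G_eq (d : ℕ) (n : ℕ) : ∀ i : ℤ, G d (2 * n) true i = O d 1 n (i / 2) := by
  induction n with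
  | zero =>
    intro i
    show (if i < 0 then (0 : ℝ) else 1) =
      if i / 2 < 0 then 0 else if i / 2 = 0 then 1 else 1
    by_cases hi : i < 0
    · rw [if_pos hi, if_pos (by omega)]
    · rw [if_neg hi, if_neg (show ¬ i / 2 < 0 by omega)]
      split_ifs <;> rfl
  | succ n ih =>
    intro i
    show ((G d (2 * n + 1) false (i - 1) + G d (2 * n + 1) false (i + 1)) / 2) ^ d = _
    have h1 : ∀ j, G d (2 * n + 1) false j = 1 - (1 - (G d (2 * n) true (j - 1) +
        G d (2 * n) true (j + 1)) / 2) ^ d := fun j => rfl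
    rw [h1, h1]
    simp only [ih]
    have e1 : (i - 1 - 1) / 2 = i / 2 - 1 := by omega
    have e2 : (i - 1 + 1) / 2 = i / 2 := by omega
    have e3 : (i + 1 - 1) / 2 = i / 2 := by omega
    have e4 : (i + 1 + 1) / 2 = i / 2 + 1 := by omega
    rw [e1, e2, e3, e4]
    show _ = (1 - (1 - (O d 1 n (i / 2 - 1) + O d 1 n (i / 2)) / 2) ^ d / 2 -
      (1 - (O d 1 n (i / 2) + O d 1 n (i / 2 + 1)) / 2) ^ d / 2) ^ d
    congr 1
    ring

/-! ### disagreement -/

/-- probability of the symmetric difference -/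
noncomputable def dis (P : Measure Ω) (X : List (Fin d) → Ω → ℤ)
    (A B : Set (List (Fin d) → ℤ)) : ℝ := pr P X A + pr P X B - 2 * pr P X (A ∩ B)

lemma dis_compl (h : Cookies P X) {A B : Set (List (Fin d) → ℤ)} (hA : MeasurableSet A)
    (hB : MeasurableSet B) : dis P X Aᶜ Bᶜ = dis P X A B := by
  unfold dis
  rw [pr_compl h hA, pr_compl h hB, ← compl_union, pr_compl h (hA.union hB)]
  have h1 : pr P X (A ∪ B) + pr P X (A ∩ B) = pr P X A + pr P X B := by
    unfold pr
    exact measureReal_union_add_inter (ev_meas h hB)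
  linarith

lemma pow_diff {M q p : ℝ} (hq : 0 ≤ q) (hqp : q ≤ p) (hpM : p ≤ M) (d : ℕ) :
    p ^ d - q ^ d ≤ d * M ^ (d - 1) * (p - q) := by
  have := MM.pow_sub_le (hq.trans hqp) hq hpM (hqp.trans hpM) d
  rw [abs_of_nonneg (show 0 ≤ p - q by linarith)] at this
  exact (le_abs_self _).trans this

lemma dis_iInter (h : Cookies P X) {S : Fin d → Finset (List (Fin d))}
    (hS : ∀ c c', c ≠ c' → Disjoint (S c) (S c')) {A B : Fin d → Set (List (Fin d) → ℤ)}
    (hA : ∀ c, DepS (S c) (A c)) (hB : ∀ c, DepS (S c) (B c)) {p p' M δ : ℝ}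
    (hp : ∀ c, pr P X (A c) = p) (hp' : ∀ c, pr P X (B c) = p') (hpM : p ≤ M) (hpM' : p' ≤ M)
    (hδ : ∀ c, dis P X (A c) (B c) ≤ δ) (hd : 1 ≤ d) :
    dis P X (⋂ c ∈ (Finset.univ : Finset (Fin d)), A c)
      (⋂ c ∈ (Finset.univ : Finset (Fin d)), B c) ≤ d * M ^ (d - 1) * δ := by
  have c0 : Fin d := ⟨0, hd⟩
  have hp0 : 0 ≤ p := by rw [← hp c0]; exact pr_nonneg _
  have e1 : (⋂ c ∈ (Finset.univ : Finset (Fin d)), A c) ∩
      (⋂ c ∈ (Finset.univ : Finset (Fin d)), B c) =
      ⋂ c ∈ (Finset.univ : Finset (Fin d)), (A c ∩ B c) := by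
    ext x
    simp only [mem_inter_iff, mem_iInter, Finset.mem_univ, forall_true_left]
    exact ⟨fun h c => ⟨h.1 c, h.2 c⟩, fun h => ⟨fun c => (h c).1, fun c => (h c).2⟩⟩
  unfold dis
  rw [e1, prod_finset h hS hA, prod_finset h hS hB,
    prod_finset h hS (fun c => depS_inter (hA c) (hB c))]
  simp only [hp, hp', Finset.prod_const, Finset.card_univ, Fintype.card_fin]
  set q := max ((p + p' - δ) / 2) 0 with hq
  have hq0 : 0 ≤ q := le_max_right _ _
  have hAB : ∀ c, q ≤ pr P X (A c ∩ B c) := by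
    intro c
    refine max_le ?_ (pr_nonneg _)
    have := hδ c
    unfold dis at this
    rw [hp, hp'] at this
    linarith
  have hqp : q ≤ p := by
    rw [← hp c0]
    exact (hAB c0).trans (pr_mono inter_subset_left)
  have hqp' : q ≤ p' := by
    rw [← hp' c0]
    exact (hAB c0).trans (pr_mono inter_subset_right)
  have h1 : q ^ d ≤ ∏ c, pr P X (A c ∩ B c) := by
    have := Finset.prod_le_prod (s := (Finset.univ : Finset (Fin d))) (f := fun _ => q)
      (g := fun c => pr P X (A c ∩ B c)) (fun _ _ => hq0) (fun c _ => hAB c)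
    simpa using this
  have h2 := pow_diff hq0 hqp hpM d
  have h3 := pow_diff hq0 hqp' hpM' d
  have h4 : p + p' - 2 * q ≤ δ := by
    have := le_max_left ((p + p' - δ) / 2) 0
    rw [← hq] at this
    linarith
  have hM : 0 ≤ (d : ℝ) * M ^ (d - 1) := by
    have : 0 ≤ M := hp0.trans hpM
    positivity
  have h5 := mul_le_mul_of_nonneg_left h4 hM
  linarith

/-- disagreement after adding the cookie -/
lemma dis_Ev (h : Cookies P X) (m m' : ℕ) (v : List (Fin d)) (i : ℤ) (c : Fin d) :
    dis P X (Ev m v i c) (Ev m' v i c) =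
      (dis P X {x | val x m (c :: v) ≤ i - 1} {x | val x m' (c :: v) ≤ i - 1} +
        dis P X {x | val x m (c :: v) ≤ i + 1} {x | val x m' (c :: v) ≤ i + 1}) / 2 := by
  have h1 := pr_Ev h m v i c
  have h2 := pr_Ev h m' v i c
  have hn : (c :: v) ∉ Tr d m (c :: v) ∪ Tr d m' (c :: v) := by
    rw [Finset.mem_union]
    exact fun h => h.elim (self_notMem m _) (self_notMem m' _)
  have h3 := cookie_mix h hn
    (E := fun j => {x | val x m (c :: v) ≤ j} ∩ {x | val x m' (c :: v) ≤ j})
    (fun j => depS_inter (depS_mono Finset.subset_union_left (depS_val m (c :: v) j))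
      (depS_mono Finset.subset_union_right (depS_val m' (c :: v) j))) i
  have e : Ev m v i c ∩ Ev m' v i c = {x | x ∈ (fun j => {x | val x m (c :: v) ≤ j} ∩
      {x | val x m' (c :: v) ≤ j}) (i - x (c :: v))} := by
    ext x
    simp only [Ev, Set.mem_setOf_eq, mem_inter_iff]
    constructor <;> rintro ⟨h, h'⟩ <;> constructor <;> linarith
  unfold dis
  rw [e, h3, h1, h2]
  unfold cd
  ring

/-- disagreement of the values with `m` and `m'` levels -/
noncomputable def dv (P : Measure Ω) (X : List (Fin d) → Ω → ℤ) (m m' : ℕ) (v : List (Fin d))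
    (i : ℤ) : ℝ := dis P X {x | val x m v ≤ i} {x | val x m' v ≤ i}

lemma dv_even (hd : 1 ≤ d) (h : Cookies P X) (m m' : ℕ) (v : List (Fin d)) (hv : Even v.length)
    (i : ℤ) {M δ : ℝ} (h1 : (G d m false (i - 1) + G d m false (i + 1)) / 2 ≤ M)
    (h2 : (G d m' false (i - 1) + G d m' false (i + 1)) / 2 ≤ M)
    (hδ : ∀ c : Fin d, (dv P X m m' (c :: v) (i - 1) + dv P X m m' (c :: v) (i + 1)) / 2 ≤ δ) :
    dv P X (m + 1) (m' + 1) v i ≤ d * M ^ (d - 1) * δ := by
  have hdd : ∀ c : Fin d, decide (Even (c :: v).length) = false := by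
    intro c
    simp only [List.length_cons, decide_eq_false_iff_not]
    rw [Nat.even_add_one]
    simpa using hv
  unfold dv
  rw [val_even hd m v hv, val_even hd m' v hv]
  refine dis_iInter h (S := fun c => Br d m v c ∪ Br d m' v c) ?_ ?_ ?_ ?_ ?_ h1 h2 ?_ hd
  · intro c c' hc
    rw [Finset.disjoint_union_left, Finset.disjoint_union_right, Finset.disjoint_union_right]
    exact ⟨⟨Br_disj m m v hc, Br_disj m m' v hc⟩, ⟨Br_disj m' m v hc, Br_disj m' m' v hc⟩⟩
  · exact fun c => depS_mono Finset.subset_union_left (depS_Ev m v i c)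
  · exact fun c => depS_mono Finset.subset_union_right (depS_Ev m' v i c)
  · intro c
    rw [pr_Ev h, cd_eq hd h, cd_eq hd h, hdd]
  · intro c
    rw [pr_Ev h, cd_eq hd h, cd_eq hd h, hdd]
  · intro c
    rw [dis_Ev h]
    exact hδ c

lemma dv_odd (hd : 1 ≤ d) (h : Cookies P X) (m m' : ℕ) (v : List (Fin d))
    (hv : ¬ Even v.length) (i : ℤ) {M δ : ℝ}
    (h1 : 1 - (G d m true (i - 1) + G d m true (i + 1)) / 2 ≤ M)
    (h2 : 1 - (G d m' true (i - 1) + G d m' true (i + 1)) / 2 ≤ M)
    (hδ : ∀ c : Fin d, (dv P X m m' (c :: v) (i - 1) + dv P X m m' (c :: v) (i + 1)) / 2 ≤ δ) :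
    dv P X (m + 1) (m' + 1) v i ≤ d * M ^ (d - 1) * δ := by
  have hdd : ∀ c : Fin d, decide (Even (c :: v).length) = true := by
    intro c
    simp only [List.length_cons, decide_eq_true_eq]
    rw [Nat.even_add_one]
    exact hv
  have hdep : ∀ (m : ℕ) (c : Fin d), DepS (Br d m v c) (Ev m v i c)ᶜ := fun m c =>
    depS_compl (depS_Ev m v i c)
  unfold dv
  rw [val_odd hd m v hv, val_odd hd m' v hv, dis_compl h (depS_meas (depS_finset (hdep m)))
    (depS_meas (depS_finset (hdep m')))]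
  refine dis_iInter h (S := fun c => Br d m v c ∪ Br d m' v c) ?_ ?_ ?_ ?_ ?_ h1 h2 ?_ hd
  · intro c c' hc
    rw [Finset.disjoint_union_left, Finset.disjoint_union_right, Finset.disjoint_union_right]
    exact ⟨⟨Br_disj m m v hc, Br_disj m m' v hc⟩, ⟨Br_disj m' m v hc, Br_disj m' m' v hc⟩⟩
  · exact fun c => depS_mono Finset.subset_union_left (hdep m c)
  · exact fun c => depS_mono Finset.subset_union_right (hdep m' c)
  · intro c
    rw [pr_compl h (depS_meas (depS_Ev m v i c)), pr_Ev h, cd_eq hd h, cd_eq hd h, hdd]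
  · intro c
    rw [pr_compl h (depS_meas (depS_Ev m' v i c)), pr_Ev h, cd_eq hd h, cd_eq hd h, hdd]
  · intro c
    rw [dis_compl h (depS_meas (depS_Ev m v i c)) (depS_meas (depS_Ev m' v i c)), dis_Ev h]
    exact hδ c

/-- **Two levels.** -/
theorem dv_step (hd : 1 ≤ d) (h : Cookies P X) (n : ℕ) {U s δ : ℤ → ℝ}
    (hU : ∀ k, uu d ((O d 1 n (k - 1) + O d 1 n k) / 2) ((O d 1 n k + O d 1 n (k + 1)) / 2) ≤ U k)
    (hU' : ∀ k, uu d ((O d 1 (n + 1) (k - 1) + O d 1 (n + 1) k) / 2)
      ((O d 1 (n + 1) k + O d 1 (n + 1) (k + 1)) / 2) ≤ U k)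
    (hs : ∀ k, 1 - (O d 1 n (k - 1) + O d 1 n k) / 2 ≤ s k)
    (hs' : ∀ k, 1 - (O d 1 (n + 1) (k - 1) + O d 1 (n + 1) k) / 2 ≤ s k)
    (hδ : ∀ v : List (Fin d), Even v.length → ∀ i, dv P X (2 * n) (2 * (n + 1)) v i ≤ δ (i / 2))
    (v : List (Fin d)) (hv : Even v.length) (i : ℤ) :
    dv P X (2 * (n + 1)) (2 * (n + 1 + 1)) v i ≤ d * U (i / 2) ^ (d - 1) *
      ((d * s (i / 2) ^ (d - 1) * ((δ (i / 2 - 1) + δ (i / 2)) / 2) +
        d * s (i / 2 + 1) ^ (d - 1) * ((δ (i / 2) + δ (i / 2 + 1)) / 2)) / 2) := by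
  have g1 : ∀ (n : ℕ) (j : ℤ), G d (2 * n + 1) false j = 1 - (1 - (G d (2 * n) true (j - 1) +
        G d (2 * n) true (j + 1)) / 2) ^ d := fun n j => rfl
  have key : ∀ n : ℕ, (G d (2 * n + 1) false (i - 1) + G d (2 * n + 1) false (i + 1)) / 2 =
      uu d ((O d 1 n (i / 2 - 1) + O d 1 n (i / 2)) / 2)
        ((O d 1 n (i / 2) + O d 1 n (i / 2 + 1)) / 2) := by
    intro n
    rw [g1, g1, G_eq, G_eq, G_eq, G_eq]
    have e1 : (i - 1 - 1) / 2 = i / 2 - 1 := by omega
    have e2 : (i - 1 + 1) / 2 = i / 2 := by omega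
    have e3 : (i + 1 - 1) / 2 = i / 2 := by omega
    have e4 : (i + 1 + 1) / 2 = i / 2 + 1 := by omega
    rw [e1, e2, e3, e4]
    unfold uu
    ring
  have hv1 : ∀ c : Fin d, ¬ Even (c :: v).length := by
    intro c
    simp only [List.length_cons]
    rw [Nat.even_add_one]
    simpa using hv
  have hv2 : ∀ c c' : Fin d, Even (c' :: c :: v).length := by
    intro c c'
    simp only [List.length_cons]
    rw [Nat.even_add_one]
    exact hv1 c
  have key2 : ∀ (n : ℕ) (j : ℤ), 1 - (G d (2 * n) true (j - 1) + G d (2 * n) true (j + 1)) / 2 =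
      1 - (O d 1 n ((j + 1) / 2 - 1) + O d 1 n ((j + 1) / 2)) / 2 := by
    intro n j
    rw [G_eq, G_eq]
    have e1 : (j - 1) / 2 = (j + 1) / 2 - 1 := by omega
    rw [e1]
  have hodd : ∀ (c : Fin d) (j : ℤ), dv P X (2 * n + 1) (2 * (n + 1) + 1) (c :: v) j ≤
      d * s ((j + 1) / 2) ^ (d - 1) * ((δ ((j + 1) / 2 - 1) + δ ((j + 1) / 2)) / 2) := by
    intro c j
    refine dv_odd hd h (2 * n) (2 * (n + 1)) (c :: v) (hv1 c) j ?_ ?_ ?_
    · rw [key2]; exact hs _
    · rw [key2]; exact hs' _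
    · intro c'
      have h1 := hδ (c' :: c :: v) (hv2 c c') (j - 1)
      have h2 := hδ (c' :: c :: v) (hv2 c c') (j + 1)
      have e1 : (j - 1) / 2 = (j + 1) / 2 - 1 := by omega
      rw [e1] at h1
      linarith
  refine dv_even hd h (2 * n + 1) (2 * (n + 1) + 1) v hv i ?_ ?_ ?_
  · rw [key]; exact hU _
  · rw [key]; exact hU' _
  · intro c
    have h1 := hodd c (i - 1)
    have h2 := hodd c (i + 1)
    have e1 : (i - 1 + 1) / 2 = i / 2 := by omega
    have e2 : (i + 1 + 1) / 2 = i / 2 + 1 := by omega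
    rw [e1] at h1
    rw [e2, add_sub_cancel_right] at h2
    linarith

end prob

end

end Pool.Agent.R975.AS
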