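import Mathlib
import Pool.Agent.R975.AS.Prob

/-! Noisy min-max game on the `d`-ary tree: Borel-Cantelli. -/

set_option autoImplicit false

namespace Pool.Agent.R975.AS

open Set Filter Topology MeasureTheory ProbabilityTheory
open Pool.Agent.R975.MM (uu O)

section

variable {d : ℕ} {Ω : Type*} [MeasurableSpace Ω] {P : Measure Ω} [IsProbabilityMeasure P]
  {X : List (Fin d) → Ω → ℤ}

lemma cd_zero (hd : 1 ≤ d) (h : Cookies P X) (n : ℕ) {i : ℤ} (hi : i < -(2 * n : ℤ)) :
    cd P X (2 * n) [] i = 0 := by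
  rw [cd_eq hd h]
  simp only [List.length_nil, Even.zero, decide_true]
  rw [G_eq]
  exact MM.O_zero_left hd 1 n _ (by omega)

lemma cd_one (hd : 1 ≤ d) (h : Cookies P X) (n : ℕ) {i : ℤ} (hi : (2 * n : ℤ) + 1 < i) :
    cd P X (2 * n) [] i = 1 := by
  rw [cd_eq hd h]
  simp only [List.length_nil, Even.zero, decide_true]
  rw [G_eq]
  exact MM.O_one_right hd 1 n _ (by omega)

/-- the event that exactly one of two consecutive values is at most `i` -/
def sd (X : List (Fin d) → Ω → ℤ) (n : ℕ) (i : ℤ) : Set Ω :=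
  {ω | ¬ (val (fun u => X u ω) (2 * n) [] ≤ i ↔ val (fun u => X u ω) (2 * (n + 1)) [] ≤ i)}

lemma sd_real (h : Cookies P X) (n : ℕ) (i : ℤ) :
    P.real (sd X n i) = dv P X (2 * n) (2 * (n + 1)) [] i := by
  set A := {ω | (fun u => X u ω) ∈ {x : List (Fin d) → ℤ | val x (2 * n) [] ≤ i}} with hA
  set B := {ω | (fun u => X u ω) ∈ {x : List (Fin d) → ℤ | val x (2 * (n + 1)) [] ≤ i}} with hB
  have hAm : MeasurableSet A := ev_meas h (depS_meas (depS_val _ _ i))
  have hBm : MeasurableSet B := ev_meas h (depS_meas (depS_val _ _ i))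
  have e : sd X n i = (A \ B) ∪ (B \ A) := by
    ext ω
    simp only [sd, hA, hB, Set.mem_setOf_eq, mem_union, mem_diff]
    tauto
  have hdj : Disjoint (A \ B) (B \ A) := by
    rw [Set.disjoint_left]
    rintro ω ⟨h1, h2⟩ ⟨h3, h4⟩
    exact h2 h3
  rw [e, measureReal_union hdj (hBm.diff hAm)]
  have h1 := measureReal_inter_add_sdiff (μ := P) (s := A) hBm
  have h2 := measureReal_inter_add_sdiff (μ := P) (s := B) hAm
  rw [inter_comm B A] at h2
  have e3 : dv P X (2 * n) (2 * (n + 1)) [] i = P.real A + P.real B - 2 * P.real (A ∩ B) := rfl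
  rw [e3]
  linarith

lemma dv_out (hd : 1 ≤ d) (h : Cookies P X) (n : ℕ) {i : ℤ}
    (hi : i ∉ Finset.Icc (-(2 * n + 4 : ℤ)) (2 * n + 4)) :
    dv P X (2 * n) (2 * (n + 1)) [] i ≤ 0 := by
  rw [Finset.mem_Icc, not_and_or] at hi
  have e : dv P X (2 * n) (2 * (n + 1)) [] i = cd P X (2 * n) [] i + cd P X (2 * (n + 1)) [] i -
    2 * pr P X ({x | val x (2 * n) [] ≤ i} ∩ {x | val x (2 * (n + 1)) [] ≤ i}) := rfl
  rw [e]
  rcases hi with hi | hi
  · rw [cd_zero hd h n (by omega), cd_zero hd h (n + 1) (by push_cast; omega)]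
    have := pr_nonneg (P := P) (X := X)
      ({x | val x (2 * n) [] ≤ i} ∩ {x | val x (2 * (n + 1)) [] ≤ i})
    linarith
  · have h1 := cd_one hd h n (i := i) (by omega)
    have h2 := cd_one hd h (n + 1) (i := i) (by push_cast; omega)
    rw [h1, h2]
    have hAm := depS_meas (depS_val (d := d) (2 * n) [] i)
    have hBm := depS_meas (depS_val (d := d) (2 * (n + 1)) [] i)
    have h3 : pr P X ({x | val x (2 * n) [] ≤ i} ∪ {x | val x (2 * (n + 1)) [] ≤ i}) +
        pr P X ({x | val x (2 * n) [] ≤ i} ∩ {x | val x (2 * (n + 1)) [] ≤ i}) =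
        cd P X (2 * n) [] i + cd P X (2 * (n + 1)) [] i := by
      unfold pr cd
      exact measureReal_union_add_inter (ev_meas h hBm)
    have h4 := pr_le_one (P := P) (X := X)
      ({x | val x (2 * n) [] ≤ i} ∪ {x | val x (2 * (n + 1)) [] ≤ i})
    rw [h1, h2] at h3
    linarith

theorem as_conv (hd : 1 ≤ d) (h : Cookies P X) {C l : ℝ} (hC0 : 0 ≤ C) (hl0 : 0 ≤ l) (hl : l < 1)
    {n0 : ℕ}
    (hC : ∀ n, n0 ≤ n → ∀ i, dv P X (2 * n) (2 * (n + 1)) [] i ≤ C * l ^ n) :
    ∀ᵐ ω ∂P, ∃ a : ℤ, ∀ᶠ n in atTop, val (fun u => X u ω) (2 * n) [] = a := by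
  set s : ℕ → Set Ω := fun n =>
    {ω | val (fun u => X u ω) (2 * n) [] ≠ val (fun u => X u ω) (2 * (n + 1)) []} with hs
  have hsub : ∀ n, s n ⊆ ⋃ i : ℤ, sd X n i := by
    intro n ω hω
    rw [mem_iUnion]
    have hω' : val (fun u => X u ω) (2 * n) [] ≠ val (fun u => X u ω) (2 * (n + 1)) [] := hω
    rcases lt_or_gt_of_ne hω' with h1 | h1
    · refine ⟨val (fun u => X u ω) (2 * n) [], fun h2 => ?_⟩
      have := h2.1 le_rfl
      omega
    · refine ⟨val (fun u => X u ω) (2 * (n + 1)) [], fun h2 => ?_⟩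
      have := h2.2 le_rfl
      omega
  have hPs : ∀ n, n0 ≤ n → P (s n) ≤ ENNReal.ofReal ((4 * n + 9) * (C * l ^ n)) := by
    intro n hn
    have hsd : ∀ i, P (sd X n i) = ENNReal.ofReal (dv P X (2 * n) (2 * (n + 1)) [] i) := by
      intro i
      rw [← sd_real h, ofReal_measureReal]
    calc P (s n) ≤ P (⋃ i : ℤ, sd X n i) := measure_mono (hsub n)
      _ ≤ ∑' i : ℤ, P (sd X n i) := measure_iUnion_le _
      _ = ∑ i ∈ Finset.Icc (-(2 * n + 4 : ℤ)) (2 * n + 4), P (sd X n i) := by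
          refine tsum_eq_sum fun i hi => ?_
          rw [hsd, ENNReal.ofReal_eq_zero]
          exact dv_out hd h n hi
      _ ≤ ∑ i ∈ Finset.Icc (-(2 * n + 4 : ℤ)) (2 * n + 4), ENNReal.ofReal (C * l ^ n) := by
          refine Finset.sum_le_sum fun i _ => ?_
          rw [hsd]
          exact ENNReal.ofReal_le_ofReal (hC n hn i)
      _ = ENNReal.ofReal ((4 * n + 9) * (C * l ^ n)) := by
          rw [Finset.sum_const, Int.card_Icc, nsmul_eq_mul]
          have e : (2 * (n : ℤ) + 4 + 1 - -(2 * n + 4)).toNat = 4 * n + 9 := by omega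
          rw [e, ENNReal.ofReal_mul (p := (4 * n + 9 : ℝ)) (q := C * l ^ n) (by positivity),
            ← ENNReal.ofReal_natCast]
          push_cast
          rfl
  have hsum : Summable fun n : ℕ => ((4 * n + 9) * (C * l ^ n) : ℝ) := by
    have h1 := summable_pow_mul_geometric_of_norm_lt_one (R := ℝ) 1 (r := l)
      (by rw [Real.norm_eq_abs, abs_of_nonneg hl0]; exact hl)
    have h2 := summable_geometric_of_lt_one hl0 hl
    have h3 := (h1.mul_left (4 * C)).add (h2.mul_left (9 * C))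
    refine h3.congr fun n => ?_
    ring
  have hne : ∑' n, P (s (n + n0)) ≠ ⊤ := by
    have h1 : ∑' n, P (s (n + n0)) ≤
        ∑' n : ℕ, ENNReal.ofReal ((4 * (n + n0 : ℕ) + 9) * (C * l ^ (n + n0))) :=
      ENNReal.tsum_le_tsum fun n => hPs (n + n0) (by omega)
    have h2 : Summable fun n : ℕ => ((4 * (n + n0 : ℕ) + 9) * (C * l ^ (n + n0)) : ℝ) :=
      (summable_nat_add_iff n0).2 hsum
    exact ne_top_of_le_ne_top h2.tsum_ofReal_ne_top h1
  have hbc := ae_eventually_notMem hne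
  filter_upwards [hbc] with ω hω
  obtain ⟨N, hN⟩ := eventually_atTop.1 hω
  have hstep : ∀ n, N + n0 ≤ n → val (fun u => X u ω) (2 * n) [] =
      val (fun u => X u ω) (2 * (n + 1)) [] := by
    intro n hn
    have h1 := hN (n - n0) (by omega)
    rw [Nat.sub_add_cancel (by omega)] at h1
    by_contra hcon
    exact h1 hcon
  refine ⟨val (fun u => X u ω) (2 * (N + n0)) [], eventually_atTop.2 ⟨N + n0, fun n hn => ?_⟩⟩
  obtain ⟨t, rfl⟩ := Nat.exists_eq_add_of_le hn
  induction t with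
  | zero => rfl
  | succ t ih =>
    rw [← ih (by omega)]
    exact (hstep (N + n0 + t) (by omega)).symm

end

end Pool.Agent.R975.AS
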