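import Mathlib
import Pool.Agent.R975.AS.BC

/-! Noisy min-max game on the `d`-ary tree: almost sure convergence from a weighted contraction. -/

set_option autoImplicit false

namespace Pool.Agent.R975.AS

open Set Filter Topology MeasureTheory ProbabilityTheory
open Pool.Agent.R975.MM (uu O g Psi)

/-- The conclusion: `V_n` is eventually constant almost surely. -/
def Conv (d : ℕ) : Prop :=
  ∀ {Ω : Type} [MeasurableSpace Ω] (P : Measure Ω) [IsProbabilityMeasure P]
    (X : List (Fin d) → Ω → ℤ), Cookies P X →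
    ∀ᵐ ω ∂P, ∃ a : ℤ, ∀ᶠ n in atTop, val (fun u => X u ω) (2 * n) [] = a

lemma O_mem (d : ℕ) (n : ℕ) : ∀ k, O d 1 n k ∈ Icc (0 : ℝ) 1 := by
  induction n with
  | zero =>
    intro k
    show MM.D 1 k ∈ _
    unfold MM.D
    split_ifs <;> simp
  | succ n ih =>
    intro k
    exact MM.g_mem (ih _) (ih _) (ih _)

section

variable {d : ℕ} {Ω : Type*} [MeasurableSpace Ω] {P : Measure Ω} [IsProbabilityMeasure P]
  {X : List (Fin d) → Ω → ℤ}

lemma dis_le_one (h : Cookies P X) {A B : Set (List (Fin d) → ℤ)}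
    (hB : MeasurableSet B) : dis P X A B ≤ 1 := by
  have h1 : pr P X (A ∪ B) + pr P X (A ∩ B) = pr P X A + pr P X B := by
    unfold pr
    exact measureReal_union_add_inter (ev_meas h hB)
  have h2 := pr_le_one (P := P) (X := X) (A ∪ B)
  have h3 := pr_nonneg (P := P) (X := X) (A ∩ B)
  unfold dis
  linarith

/-- the transfer operator of the box -/
noncomputable def op (d : ℕ) (lo hi w : ℤ → ℝ) (k : ℤ) : ℝ :=
  d * uu d ((hi (k - 1) + hi k) / 2) ((hi k + hi (k + 1)) / 2) ^ (d - 1) *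
    ((d * (1 - (lo (k - 1) + lo k) / 2) ^ (d - 1) * ((w (k - 1) + w k) / 2) +
      d * (1 - (lo k + lo (k + 1)) / 2) ^ (d - 1) * ((w k + w (k + 1)) / 2)) / 2)

theorem box (hd : 1 ≤ d) (h : Cookies P X) {lo hi w : ℤ → ℝ} {n0 : ℕ} {l wmin wmax : ℝ}
    (hlo : ∀ n, n0 ≤ n → ∀ k, lo k ≤ O d 1 n k) (hhi : ∀ n, n0 ≤ n → ∀ k, O d 1 n k ≤ hi k)
    (hhi1 : ∀ k, hi k ≤ 1) (hl0 : 0 < l) (hl1 : l < 1) (hw : ∀ k, wmin ≤ w k)
    (hw0 : 0 < wmin) (hw' : ∀ k, w k ≤ wmax) (hstep : ∀ k, op d lo hi w k ≤ l * w k) :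
    ∀ᵐ ω ∂P, ∃ a : ℤ, ∀ᶠ n in atTop, val (fun u => X u ω) (2 * n) [] = a := by
  have hU : ∀ n, n0 ≤ n → ∀ k, uu d ((O d 1 n (k - 1) + O d 1 n k) / 2)
      ((O d 1 n k + O d 1 n (k + 1)) / 2) ≤
      uu d ((hi (k - 1) + hi k) / 2) ((hi k + hi (k + 1)) / 2) := by
    intro n hn k
    have a1 := hhi n hn (k - 1)
    have a2 := hhi n hn k
    have a3 := hhi n hn (k + 1)
    have b1 := hhi1 (k - 1)
    have b2 := hhi1 k
    have b3 := hhi1 (k + 1)
    exact MM.uu_mono (by linarith) (by linarith) (by linarith) (by linarith)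
  have hs : ∀ n, n0 ≤ n → ∀ k, 1 - (O d 1 n (k - 1) + O d 1 n k) / 2 ≤
      1 - (lo (k - 1) + lo k) / 2 := by
    intro n hn k
    have a1 := hlo n hn (k - 1)
    have a2 := hlo n hn k
    linarith
  have key : ∀ t : ℕ, ∀ v : List (Fin d), Even v.length → ∀ i,
      dv P X (2 * (n0 + t)) (2 * (n0 + t + 1)) v i ≤ (l ^ t / wmin) * w (i / 2) := by
    intro t
    induction t with
    | zero =>
      intro v _ i
      have h1 : dv P X (2 * (n0 + 0)) (2 * (n0 + 0 + 1)) v i ≤ 1 :=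
        dis_le_one h (depS_meas (depS_val _ _ i))
      refine h1.trans ?_
      rw [pow_zero, one_div, ← div_eq_inv_mul, le_div_iff₀ hw0, one_mul]
      exact hw _
    | succ t ih =>
      intro v hv i
      have h1 := dv_step hd h (n0 + t)
        (U := fun k => uu d ((hi (k - 1) + hi k) / 2) ((hi k + hi (k + 1)) / 2))
        (s := fun k => 1 - (lo (k - 1) + lo k) / 2) (δ := fun k => (l ^ t / wmin) * w k)
        (hU (n0 + t) (by omega)) (hU (n0 + t + 1) (by omega)) (hs (n0 + t) (by omega))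
        (hs (n0 + t + 1) (by omega)) ih v hv i
      refine h1.trans ?_
      have h2 := hstep (i / 2)
      have hc : 0 ≤ l ^ t / wmin := by positivity
      have h3 := mul_le_mul_of_nonneg_left h2 hc
      refine le_trans (le_of_eq ?_) (h3.trans (le_of_eq ?_))
      · unfold op
        simp only [add_sub_cancel_right]
        ring
      · rw [pow_succ]; ring
  have hC0 : 0 ≤ wmax / (wmin * l ^ n0) := by
    have := (hw0.le.trans (hw 0)).trans (hw' 0)
    positivity
  refine as_conv hd h (C := wmax / (wmin * l ^ n0)) hC0 hl0.le hl1 (n0 := n0) fun n hn i => ?_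
  obtain ⟨t, rfl⟩ := Nat.exists_eq_add_of_le hn
  refine (key t [] (by simp) i).trans ?_
  have h1 : l ^ t / wmin * w (i / 2) ≤ l ^ t / wmin * wmax :=
    mul_le_mul_of_nonneg_left (hw' _) (by positivity)
  refine h1.trans (le_of_eq ?_)
  rw [pow_add]
  have : l ^ n0 ≠ 0 := (pow_pos hl0 _).ne'
  field_simp

end

/-! ### large `d` -/

lemma geo_bound {r : ℝ} (hr0 : 0 ≤ r) (hr : r ≤ 49 / 64) (d : ℕ) (hd : 7 ≤ d) :
    (d : ℝ) ^ 2 * r ^ (d - 1) ≤ 49 * r ^ 6 := by
  induction d, hd using Nat.le_induction with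
  | base => norm_num
  | succ d hd ih =>
    have hd' : (7 : ℝ) ≤ d := by exact_mod_cast hd
    have e : d + 1 - 1 = (d - 1) + 1 := by omega
    rw [e, pow_succ r]
    have h1 : ((d + 1 : ℕ) : ℝ) ^ 2 * r ≤ (d : ℝ) ^ 2 := by
      push_cast
      have h2 : ((d : ℝ) + 1) ^ 2 ≤ 64 / 49 * (d : ℝ) ^ 2 := by nlinarith
      calc ((d : ℝ) + 1) ^ 2 * r ≤ 64 / 49 * (d : ℝ) ^ 2 * r :=
            mul_le_mul_of_nonneg_right h2 hr0
        _ ≤ 64 / 49 * (d : ℝ) ^ 2 * (49 / 64) := mul_le_mul_of_nonneg_left hr (by positivity)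
        _ = (d : ℝ) ^ 2 := by ring
    have h3 : 0 ≤ r ^ (d - 1) := pow_nonneg hr0 _
    have h4 := mul_le_mul_of_nonneg_right h1 h3
    linarith

lemma geo_bound1 {r : ℝ} (hr0 : 0 ≤ r) (hr : r ≤ 7 / 8) (d : ℕ) (hd : 7 ≤ d) :
    (d : ℝ) * r ^ d ≤ 7 * r ^ 7 := by
  induction d, hd using Nat.le_induction with
  | base => norm_num
  | succ d hd ih =>
    have hd' : (7 : ℝ) ≤ d := by exact_mod_cast hd
    rw [pow_succ]
    have h1 : ((d + 1 : ℕ) : ℝ) * r ≤ d := by
      push_cast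
      calc ((d : ℝ) + 1) * r ≤ (8 / 7 * d) * r := mul_le_mul_of_nonneg_right (by linarith) hr0
        _ ≤ (8 / 7 * d) * (7 / 8) := mul_le_mul_of_nonneg_left hr (by positivity)
        _ = d := by ring
    have h3 : 0 ≤ r ^ d := pow_nonneg hr0 _
    have h4 := mul_le_mul_of_nonneg_right h1 h3
    linarith

section large

variable {d : ℕ}

lemma al_le (hd : 7 ≤ d) : (d : ℝ) * (9 / 16) ^ d ≤ 1 / 8 := by
  refine (geo_bound1 (by norm_num) (by norm_num) d hd).trans (by norm_num)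

lemma be_le (hd : 7 ≤ d) : (d : ℝ) / 2 * ((21 / 40) ^ d + (1 / 20) ^ d) ≤ 1 / 20 := by
  have h1 := geo_bound1 (r := 21 / 40) (by norm_num) (by norm_num) d hd
  have h2 := geo_bound1 (r := 1 / 20) (by norm_num) (by norm_num) d hd
  norm_num at h1 h2 ⊢
  linarith

lemma O_large (hd : 7 ≤ d) (n : ℕ) :
    (∀ k : ℤ, k ≤ -1 → O d 1 n k ≤ (9 / 16) ^ d) ∧ (∀ k : ℤ, 0 ≤ k → 19 / 20 ≤ O d 1 n k) := by
  induction n with
  | zero =>
    constructor
    · intro k hk
      show MM.D 1 k ≤ _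
      unfold MM.D
      rw [if_pos (by omega)]
      positivity
    · intro k hk
      show _ ≤ MM.D 1 k
      unfold MM.D
      rw [if_neg (by omega)]
      split_ifs <;> norm_num
  | succ n ih =>
    obtain ⟨ih1, ih2⟩ := ih
    have hm := O_mem d n
    have hal := al_le hd
    have hd0 : (0 : ℝ) < d := by
      have : (7 : ℝ) ≤ d := by exact_mod_cast hd
      linarith
    constructor
    · intro k hk
      show g d (O d 1 n (k - 1)) (O d 1 n k) (O d 1 n (k + 1)) ≤ _
      have a1 := ih1 (k - 1) (by omega)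
      have a2 := ih1 k hk
      have ha := MM.avg_mem (hm (k - 1)) (hm k)
      have hb := MM.avg_mem (hm k) (hm (k + 1))
      have h1 := MM.one_sub_pow_ge ha.1 ha.2 d
      have h2 : 0 ≤ (1 - (O d 1 n k + O d 1 n (k + 1)) / 2) ^ d := pow_nonneg (by linarith [hb.2]) _
      have h3 : uu d ((O d 1 n (k - 1) + O d 1 n k) / 2) ((O d 1 n k + O d 1 n (k + 1)) / 2) ≤
          9 / 16 := by
        unfold uu
        have h4 : (d : ℝ) * ((O d 1 n (k - 1) + O d 1 n k) / 2) ≤ d * (9 / 16) ^ d :=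
          mul_le_mul_of_nonneg_left (by linarith) hd0.le
        linarith
      exact pow_le_pow_left₀ (MM.uu_mem ha hb).1 h3 d
    · intro k hk
      show _ ≤ g d (O d 1 n (k - 1)) (O d 1 n k) (O d 1 n (k + 1))
      have a2 := ih2 k hk
      have a3 := ih2 (k + 1) (by omega)
      have a1 := (hm (k - 1)).1
      have ha := MM.avg_mem (hm (k - 1)) (hm k)
      have hb := MM.avg_mem (hm k) (hm (k + 1))
      have h1 : (1 - (O d 1 n (k - 1) + O d 1 n k) / 2) ^ d ≤ (21 / 40) ^ d :=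
        pow_le_pow_left₀ (by linarith [ha.2]) (by linarith) _
      have h2 : (1 - (O d 1 n k + O d 1 n (k + 1)) / 2) ^ d ≤ (1 / 20) ^ d :=
        pow_le_pow_left₀ (by linarith [hb.2]) (by linarith) _
      have h3 := MM.H_ge (d := d) ha hb h1 h2
      have h4 := be_le hd
      have h5 : g d (O d 1 n (k - 1)) (O d 1 n k) (O d 1 n (k + 1)) =
        MM.H d ((O d 1 n (k - 1) + O d 1 n k) / 2) ((O d 1 n k + O d 1 n (k + 1)) / 2) := rfl
      rw [h5]
      linarith

/-- lower box -/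
noncomputable def loL (k : ℤ) : ℝ := if k ≤ -1 then 0 else 19 / 20

/-- upper box -/
noncomputable def hiL (d : ℕ) (k : ℤ) : ℝ := if k ≤ -1 then (9 / 16) ^ d else 1

theorem large (hd : 7 ≤ d) {Ω : Type*} [MeasurableSpace Ω] {P : Measure Ω}
    [IsProbabilityMeasure P] {X : List (Fin d) → Ω → ℤ} (h : Cookies P X) :
    ∀ᵐ ω ∂P, ∃ a : ℤ, ∀ᶠ n in atTop, val (fun u => X u ω) (2 * n) [] = a := by
  have hd0 : (0 : ℝ) < d := by
    have : (7 : ℝ) ≤ d := by exact_mod_cast hd
    linarith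
  have hal := al_le hd
  have hpos : (0 : ℝ) < (9 / 16) ^ d := by positivity
  have hp1 : ((9 : ℝ) / 16) ^ d ≤ 1 := pow_le_one₀ (by norm_num) (by norm_num)
  refine box (lo := loL) (hi := hiL d) (w := fun _ => 1) (n0 := 0) (l := 4 / 5) (wmin := 1)
    (wmax := 1) (by omega) h ?_ ?_ ?_ (by norm_num) (by norm_num) (fun _ => le_rfl) one_pos
    (fun _ => le_rfl) ?_
  · intro n _ k
    unfold loL
    split_ifs with hk
    · exact (O_mem d n k).1
    · exact (O_large hd n).2 k (by omega)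
  · intro n _ k
    unfold hiL
    split_ifs with hk
    · exact (O_large hd n).1 k hk
    · exact (O_mem d n k).2
  · intro k
    unfold hiL
    split_ifs
    · exact hp1
    · exact le_rfl
  · intro k
    have hh : ∀ k, hiL d k ∈ Icc (0 : ℝ) 1 := by
      intro k
      unfold hiL
      split_ifs
      · exact ⟨hpos.le, hp1⟩
      · exact ⟨zero_le_one, le_rfl⟩
    have hll : ∀ k, loL k ∈ Icc (0 : ℝ) 1 := by
      intro k
      unfold loL
      split_ifs
      · exact ⟨le_rfl, zero_le_one⟩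
      · constructor <;> norm_num
    have hu := MM.uu_mem (d := d) (MM.avg_mem (hh (k - 1)) (hh k)) (MM.avg_mem (hh k) (hh (k + 1)))
    have hA := MM.avg_mem (hll (k - 1)) (hll k)
    have hB := MM.avg_mem (hll k) (hll (k + 1))
    -- general bound
    have gen : ∀ u s1 s2 : ℝ,
        uu d ((hiL d (k - 1) + hiL d k) / 2) ((hiL d k + hiL d (k + 1)) / 2) ≤ u →
        1 - (loL (k - 1) + loL k) / 2 ≤ s1 → 1 - (loL k + loL (k + 1)) / 2 ≤ s2 →
        (d : ℝ) ^ 2 * u ^ (d - 1) * (s1 ^ (d - 1) + s2 ^ (d - 1)) ≤ 8 / 5 →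
        op d loL (hiL d) (fun _ => 1) k ≤ 4 / 5 * 1 := by
      intro u s1 s2 h1 h2 h3 h4
      have e1 : uu d ((hiL d (k - 1) + hiL d k) / 2) ((hiL d k + hiL d (k + 1)) / 2) ^ (d - 1) ≤
          u ^ (d - 1) := pow_le_pow_left₀ hu.1 h1 _
      have e2 : (1 - (loL (k - 1) + loL k) / 2) ^ (d - 1) ≤ s1 ^ (d - 1) :=
        pow_le_pow_left₀ (by linarith [hA.2]) h2 _
      have e3 : (1 - (loL k + loL (k + 1)) / 2) ^ (d - 1) ≤ s2 ^ (d - 1) :=
        pow_le_pow_left₀ (by linarith [hB.2]) h3 _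
      have f1 : 0 ≤ uu d ((hiL d (k - 1) + hiL d k) / 2) ((hiL d k + hiL d (k + 1)) / 2) ^ (d - 1) :=
        pow_nonneg hu.1 _
      have f2 : 0 ≤ (1 - (loL (k - 1) + loL k) / 2) ^ (d - 1) := pow_nonneg (by linarith [hA.2]) _
      have f3 : 0 ≤ (1 - (loL k + loL (k + 1)) / 2) ^ (d - 1) := pow_nonneg (by linarith [hB.2]) _
      unfold op
      generalize uu d ((hiL d (k - 1) + hiL d k) / 2) ((hiL d k + hiL d (k + 1)) / 2) ^ (d - 1) = a
        at *
      generalize (1 - (loL (k - 1) + loL k) / 2) ^ (d - 1) = b at *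
      generalize (1 - (loL k + loL (k + 1)) / 2) ^ (d - 1) = c at *
      have e4 : a * (b + c) ≤ u ^ (d - 1) * (s1 ^ (d - 1) + s2 ^ (d - 1)) :=
        mul_le_mul e1 (by linarith) (by linarith) (f1.trans e1)
      have e5 := mul_le_mul_of_nonneg_left e4 (show (0 : ℝ) ≤ (d : ℝ) ^ 2 by positivity)
      nlinarith
    rcases lt_trichotomy k (-1) with hk | hk | hk
    · -- `k ≤ -2`
      refine gen (1 / 8) 1 1 ?_ (by linarith [hA.1]) (by linarith [hB.1]) ?_
      · have q1 : hiL d (k - 1) = (9 / 16) ^ d := if_pos (by omega)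
        have q2 : hiL d k = (9 / 16) ^ d := if_pos (by omega)
        have q3 : hiL d (k + 1) = (9 / 16) ^ d := if_pos (by omega)
        rw [q1, q2, q3]
        have h1 := MM.one_sub_pow_ge hpos.le hp1 d
        have e : ((9 : ℝ) / 16) ^ d = ((9 / 16) ^ d + (9 / 16) ^ d) / 2 := by ring
        rw [← e]
        unfold uu
        linarith
      · have h1 := geo_bound (r := 1 / 8) (by norm_num) (by norm_num) d hd
        simp only [one_pow]
        linarith
    · -- `k = -1`
      subst hk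
      refine gen (9 / 16) 1 (21 / 40) ?_ (by linarith [hA.1]) ?_ ?_
      · have q1 : hiL d (-1 - 1) = (9 / 16) ^ d := if_pos (by norm_num)
        have q2 : hiL d (-1) = (9 / 16) ^ d := if_pos (by norm_num)
        have q3 : hiL d (-1 + 1) = 1 := if_neg (by norm_num)
        rw [q1, q2, q3]
        have h1 := MM.one_sub_pow_ge hpos.le hp1 d
        have e : ((9 : ℝ) / 16) ^ d = ((9 / 16) ^ d + (9 / 16) ^ d) / 2 := by ring
        rw [← e]
        have h2 : 0 ≤ (1 - ((9 / 16 : ℝ) ^ d + 1) / 2) ^ d := pow_nonneg (by linarith) _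
        unfold uu
        linarith
      · have q1 : loL (-1) = 0 := if_pos (by norm_num)
        have q2 : loL (-1 + 1) = 19 / 20 := if_neg (by norm_num)
        rw [q1, q2]
        norm_num
      · have h1 := geo_bound (r := 9 / 16) (by norm_num) (by norm_num) d hd
        have h2 : ((21 : ℝ) / 40) ^ (d - 1) ≤ (21 / 40) ^ 6 :=
          pow_le_pow_of_le_one (by norm_num) (by norm_num) (by omega)
        have h3 : (0 : ℝ) ≤ (d : ℝ) ^ 2 * (9 / 16) ^ (d - 1) := by positivity
        rw [one_pow]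
        calc (d : ℝ) ^ 2 * (9 / 16) ^ (d - 1) * (1 + (21 / 40) ^ (d - 1)) ≤
              (d : ℝ) ^ 2 * (9 / 16) ^ (d - 1) * (1 + (21 / 40) ^ 6) :=
              mul_le_mul_of_nonneg_left (by linarith) h3
          _ ≤ 49 * (9 / 16) ^ 6 * (1 + (21 / 40) ^ 6) :=
              mul_le_mul_of_nonneg_right h1 (by positivity)
          _ ≤ 8 / 5 := by norm_num
    · -- `0 ≤ k`
      refine gen 1 (21 / 40) (1 / 20) hu.2 ?_ ?_ ?_
      · have q1 := (hll (k - 1)).1
        have q2 : loL k = 19 / 20 := if_neg (by omega)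
        rw [q2]
        linarith
      · have q1 : loL (k + 1) = 19 / 20 := if_neg (by omega)
        have q2 : loL k = 19 / 20 := if_neg (by omega)
        rw [q1, q2]
        norm_num
      · have h1 := geo_bound (r := 21 / 40) (by norm_num) (by norm_num) d hd
        have h2 := geo_bound (r := 1 / 20) (by norm_num) (by norm_num) d hd
        simp only [one_pow, mul_one]
        norm_num at h1 h2 ⊢
        linarith

end large

end Pool.Agent.R975.AS
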