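import Mathlib
import Pool.Agent.R975.AS.Box

/-! Noisy min-max game on the `d`-ary tree: certificates with integer arithmetic. -/

set_option autoImplicit false

namespace Pool.Agent.R975.AS

open Set Filter Topology MeasureTheory ProbabilityTheory
open Pool.Agent.R975.MM (uu O g Psi)

/-- numerator of the inner expression -/
def nN (d S x y z : ℕ) : ℕ := 2 * (2 * S) ^ d - (2 * S - (x + y)) ^ d - (2 * S - (y + z)) ^ d

/-- integer version of `g`, rounded down -/
def gN (d S x y z : ℕ) : ℕ := nN d S x y z ^ d * S / (2 * (2 * S) ^ d) ^ d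

section sound

variable {d S x y z : ℕ}

lemma avg_cast (hS : 0 < S) (hx : x ≤ S) (hy : y ≤ S) :
    1 - ((x : ℝ) / S + y / S) / 2 = ((2 * S - (x + y) : ℕ) : ℝ) / (2 * S) := by
  have hS' : (S : ℝ) ≠ 0 := by positivity
  rw [Nat.cast_sub (by omega)]
  push_cast
  field_simp

lemma uu_cast (hS : 0 < S) (hx : x ≤ S) (hy : y ≤ S) (hz : z ≤ S) :
    uu d (((x : ℝ) / S + y / S) / 2) (((y : ℝ) / S + z / S) / 2) =
      (nN d S x y z : ℝ) / (2 * (2 * S) ^ d) := by
  have hS' : (0 : ℝ) < 2 * S := by positivity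
  have hq : (0 : ℝ) < (2 * S) ^ d := by positivity
  have h1 : (2 * S - (x + y)) ^ d ≤ (2 * S) ^ d := Nat.pow_le_pow_left (Nat.sub_le _ _) _
  have h2 : (2 * S - (y + z)) ^ d ≤ (2 * S) ^ d := Nat.pow_le_pow_left (Nat.sub_le _ _) _
  have h3 : (nN d S x y z : ℝ) = 2 * (2 * S) ^ d - ((2 * S - (x + y) : ℕ) : ℝ) ^ d -
      ((2 * S - (y + z) : ℕ) : ℝ) ^ d := by
    unfold nN
    rw [Nat.cast_sub (by omega), Nat.cast_sub (by omega)]
    push_cast
    ring
  unfold uu
  rw [avg_cast hS hx hy, avg_cast hS hy hz, h3, div_pow, div_pow]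
  field_simp

lemma g_cast (hS : 0 < S) (hx : x ≤ S) (hy : y ≤ S) (hz : z ≤ S) :
    g d ((x : ℝ) / S) (y / S) (z / S) =
      (nN d S x y z : ℝ) ^ d / (2 * (2 * S) ^ d) ^ d := by
  show uu d (((x : ℝ) / S + y / S) / 2) (((y : ℝ) / S + z / S) / 2) ^ d = _
  rw [uu_cast hS hx hy hz, div_pow]

lemma gN_le (hS : 0 < S) (hx : x ≤ S) (hy : y ≤ S) (hz : z ≤ S) :
    (gN d S x y z : ℝ) / S ≤ g d ((x : ℝ) / S) (y / S) (z / S) := by
  have hS' : (0 : ℝ) < S := by positivity
  have h1 : (gN d S x y z : ℝ) ≤ ((nN d S x y z ^ d * S : ℕ) : ℝ) /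
      (((2 * (2 * S) ^ d) ^ d : ℕ) : ℝ) := Nat.cast_div_le
  rw [g_cast hS hx hy hz, div_le_iff₀ hS']
  refine h1.trans (le_of_eq ?_)
  push_cast
  ring

lemma le_gN (hS : 0 < S) (hx : x ≤ S) (hy : y ≤ S) (hz : z ≤ S) :
    g d ((x : ℝ) / S) (y / S) (z / S) ≤ ((gN d S x y z + 1 : ℕ) : ℝ) / S := by
  have hS' : (0 : ℝ) < S := by positivity
  have hq : 0 < (2 * (2 * S) ^ d) ^ d := by positivity
  have h1 : nN d S x y z ^ d * S ≤ (gN d S x y z + 1) * (2 * (2 * S) ^ d) ^ d := by
    unfold gN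
    generalize nN d S x y z ^ d * S = a
    generalize (2 * (2 * S) ^ d) ^ d = b at *
    have h2 := Nat.div_add_mod a b
    have h3 := Nat.mod_lt a hq
    have h4 : (a / b + 1) * b = b * (a / b) + b := by ring
    omega
  rw [g_cast hS hx hy hz, le_div_iff₀ hS', div_mul_eq_mul_div, div_le_iff₀ (by positivity)]
  exact_mod_cast h1

end sound

/-! ### states -/

/-- values at the coordinates `-2, -1, 0, 1`, in units of `1 / S` -/
structure St where
  a : ℕ
  b : ℕ
  c : ℕ
  e : ℕ

/-- lower state as a function -/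
def loN (S T : ℕ) (x : St) (k : ℤ) : ℕ :=
  if k ≤ -3 then 0 else if k = -2 then x.a else if k = -1 then x.b else if k = 0 then x.c
  else if k = 1 then x.e else S - T

/-- upper state as a function -/
def hiN (S T : ℕ) (x : St) (k : ℤ) : ℕ :=
  if k ≤ -3 then T else if k = -2 then x.a else if k = -1 then x.b else if k = 0 then x.c
  else if k = 1 then x.e else S

/-- weights as a function -/
def wN (wo : ℕ) (x : St) (k : ℤ) : ℕ :=
  if k ≤ -3 then wo else if k = -2 then x.a else if k = -1 then x.b else if k = 0 then x.c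
  else if k = 1 then x.e else wo

def stepLo (d S T : ℕ) (x : St) : St :=
  ⟨gN d S 0 x.a x.b, gN d S x.a x.b x.c, gN d S x.b x.c x.e, gN d S x.c x.e (S - T)⟩

def stepHi (d S T : ℕ) (x : St) : St :=
  ⟨min S (gN d S T x.a x.b + 1), min S (gN d S x.a x.b x.c + 1), min S (gN d S x.b x.c x.e + 1),
    min S (gN d S x.c x.e S + 1)⟩

/-- the tails are preserved -/
def tailOk (d S T : ℕ) (x y : St) : Bool :=
  decide (S - T ≤ gN d S x.e (S - T) (S - T)) && decide (gN d S T T y.a + 1 ≤ T)

def run (d S T : ℕ) : ℕ → St → St → Option (St × St)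
  | 0, x, y => some (x, y)
  | n + 1, x, y => if tailOk d S T x y then run d S T n (stepLo d S T x) (stepHi d S T y) else none

def leSt (x y : St) : Bool :=
  decide (x.a ≤ y.a) && decide (x.b ≤ y.b) && decide (x.c ≤ y.c) && decide (x.e ≤ y.e)

/-- the transfer inequality at one coordinate -/
def chk (d S hx hy hz lx ly lz wx wy wz : ℕ) : Bool :=
  decide (100 * d ^ 2 * nN d S hx hy hz ^ (d - 1) *
    ((2 * S - (lx + ly)) ^ (d - 1) * (wx + wy) + (2 * S - (ly + lz)) ^ (d - 1) * (wy + wz)) ≤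
    396 * wy * (2 * (2 * S) ^ d) ^ (d - 1) * (2 * S) ^ (d - 1))

/-- the initial state -/
def ini (S : ℕ) : St := ⟨0, 0, S, S⟩

def chkAt (d S T wo : ℕ) (lo hi w : St) (k : ℤ) : Bool :=
  chk d S (hiN S T hi (k - 1)) (hiN S T hi k) (hiN S T hi (k + 1)) (loN S T lo (k - 1))
    (loN S T lo k) (loN S T lo (k + 1)) (wN wo w (k - 1)) (wN wo w k) (wN wo w (k + 1))

/-- the whole certificate -/
def check (d S T n0 wo : ℕ) (lo hi w : St) : Bool :=
  (match run d S T n0 (ini S) (ini S) with
    | some (x, y) => leSt lo x && leSt y hi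
    | none => false) &&
  tailOk d S T lo hi && decide (S - T ≤ gN d S (S - T) (S - T) (S - T)) &&
  decide (gN d S T T T + 1 ≤ T) && leSt lo (stepLo d S T lo) && leSt (stepHi d S T hi) hi &&
  leSt hi ⟨S, S, S, S⟩ && leSt ⟨1, 1, 1, 1⟩ w && decide (1 ≤ wo) && decide (1 ≤ S) &&
  decide (T ≤ S) && decide (1 ≤ d) &&
  chkAt d S T wo lo hi w (-4) && chkAt d S T wo lo hi w (-3) && chkAt d S T wo lo hi w (-2) &&
  chkAt d S T wo lo hi w (-1) && chkAt d S T wo lo hi w 0 && chkAt d S T wo lo hi w 1 &&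
  chkAt d S T wo lo hi w 2 && chkAt d S T wo lo hi w 3

section states

variable {d S T : ℕ}

/-- lower bound at time `n` -/
def Below (d S T n : ℕ) (x : St) : Prop := ∀ k, (loN S T x k : ℝ) / S ≤ O d 1 n k

/-- upper bound at time `n` -/
def Above (d S T n : ℕ) (y : St) : Prop :=
  (∀ k, O d 1 n k ≤ (hiN S T y k : ℝ) / S) ∧ ∀ k, hiN S T y k ≤ S

lemma leSt_iff {x y : St} : leSt x y = true ↔ x.a ≤ y.a ∧ x.b ≤ y.b ∧ x.c ≤ y.c ∧ x.e ≤ y.e := by
  simp [leSt, and_assoc]

lemma loN_mono {x y : St} (h : leSt x y = true) (k : ℤ) : loN S T x k ≤ loN S T y k := by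
  rw [leSt_iff] at h
  obtain ⟨h1, h2, h3, h4⟩ := h
  unfold loN
  split_ifs <;> first | assumption | exact le_rfl

lemma hiN_mono {x y : St} (h : leSt x y = true) (k : ℤ) : hiN S T x k ≤ hiN S T y k := by
  rw [leSt_iff] at h
  obtain ⟨h1, h2, h3, h4⟩ := h
  unfold hiN
  split_ifs <;> first | assumption | exact le_rfl

lemma Below.mono (hS : 0 < S) {n : ℕ} {x y : St} (h : leSt x y = true) (hy : Below d S T n y) :
    Below d S T n x := by
  intro k
  refine le_trans ?_ (hy k)
  have h1 : (loN S T x k : ℝ) ≤ loN S T y k := by exact_mod_cast loN_mono h k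
  have hS' : (0 : ℝ) < S := by exact_mod_cast hS
  exact div_le_div_of_nonneg_right h1 hS'.le

lemma Above.mono (hS : 0 < S) {n : ℕ} {x y : St} (h : leSt x y = true) (hx : Above d S T n x)
    (hy : ∀ k, hiN S T y k ≤ S) : Above d S T n y := by
  refine ⟨fun k => le_trans (hx.1 k) ?_, hy⟩
  have h1 : (hiN S T x k : ℝ) ≤ hiN S T y k := by exact_mod_cast hiN_mono h k
  have hS' : (0 : ℝ) < S := by exact_mod_cast hS
  exact div_le_div_of_nonneg_right h1 hS'.le

lemma Below.le_S (hS : 0 < S) {n : ℕ} {x : St} (h : Below d S T n x) (k : ℤ) :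
    loN S T x k ≤ S := by
  have h1 := (h k).trans (O_mem d n k).2
  have hS' : (0 : ℝ) < S := by exact_mod_cast hS
  rw [div_le_one hS'] at h1
  exact_mod_cast h1

lemma Below.step (hS : 0 < S) {n : ℕ} {x : St} (h : Below d S T n x)
    (h1 : S - T ≤ gN d S x.e (S - T) (S - T))
    (h2 : S - T ≤ gN d S (S - T) (S - T) (S - T)) : Below d S T (n + 1) (stepLo d S T x) := by
  intro k
  have hS' : (0 : ℝ) < S := by exact_mod_cast hS
  have hle := h.le_S hS
  have h3 : (gN d S (loN S T x (k - 1)) (loN S T x k) (loN S T x (k + 1)) : ℝ) / S ≤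
      O d 1 (n + 1) k := by
    refine (gN_le hS (hle _) (hle _) (hle _)).trans ?_
    have hm := O_mem d n
    exact MM.g_mono (by positivity) (by positivity) (by positivity) (hm _).2 (hm _).2 (hm _).2
      (h _) (h _) (h _)
  refine le_trans ?_ h3
  apply div_le_div_of_nonneg_right _ hS'.le
  have h4 : loN S T (stepLo d S T x) k ≤
      gN d S (loN S T x (k - 1)) (loN S T x k) (loN S T x (k + 1)) := by
    rcases lt_or_ge k (-2) with hk | hk
    · have : loN S T (stepLo d S T x) k = 0 := if_pos (by omega)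
      rw [this]; exact Nat.zero_le _
    rcases lt_or_ge k 3 with hk3 | hk3
    · have hk5 : k = -2 ∨ k = -1 ∨ k = 0 ∨ k = 1 ∨ k = 2 := by omega
      rcases hk5 with rfl | rfl | rfl | rfl | rfl
      · simp [loN, stepLo]
      · simp [loN, stepLo]
      · simp [loN, stepLo]
      · simp [loN, stepLo]
      · simpa [loN, stepLo] using h1
    · have e1 : ∀ j : ℤ, 2 ≤ j → ∀ y : St, loN S T y j = S - T := by
        intro j hj y
        unfold loN
        rw [if_neg (by omega), if_neg (by omega), if_neg (by omega), if_neg (by omega),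
          if_neg (by omega)]
      rw [e1 k (by omega), e1 k (by omega), e1 (k - 1) (by omega), e1 (k + 1) (by omega)]
      exact h2
  exact_mod_cast h4

lemma Above.step (hS : 0 < S) (hT : T ≤ S) {n : ℕ} {y : St} (h : Above d S T n y)
    (h1 : gN d S T T y.a + 1 ≤ T) (h2 : gN d S T T T + 1 ≤ T) :
    Above d S T (n + 1) (stepHi d S T y) := by
  have hS' : (0 : ℝ) < S := by exact_mod_cast hS
  have hle := h.2
  have h3 : ∀ k, O d 1 (n + 1) k ≤
      ((min S (gN d S (hiN S T y (k - 1)) (hiN S T y k) (hiN S T y (k + 1)) + 1) : ℕ) : ℝ) / S := by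
    intro k
    rw [Nat.cast_min, ← min_div_div_right hS'.le]
    refine le_min ?_ ?_
    · rw [div_self hS'.ne']
      exact (O_mem d (n + 1) k).2
    · refine le_trans ?_ (le_gN hS (hle _) (hle _) (hle _))
      have hm := O_mem d n
      have hh : ∀ j, (hiN S T y j : ℝ) / S ≤ 1 := by
        intro j
        rw [div_le_one hS']
        exact_mod_cast hle j
      exact MM.g_mono (hm _).1 (hm _).1 (hm _).1 (hh _) (hh _) (hh _) (h.1 _) (h.1 _) (h.1 _)
  refine ⟨fun k => (h3 k).trans ?_, fun k => ?_⟩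
  · apply div_le_div_of_nonneg_right _ hS'.le
    have h4 : min S (gN d S (hiN S T y (k - 1)) (hiN S T y k) (hiN S T y (k + 1)) + 1) ≤
        hiN S T (stepHi d S T y) k := by
      rcases lt_or_ge 1 k with hk | hk
      · have : hiN S T (stepHi d S T y) k = S := by
          unfold hiN
          rw [if_neg (by omega), if_neg (by omega), if_neg (by omega), if_neg (by omega),
            if_neg (by omega)]
        rw [this]
        exact min_le_left _ _
      rcases lt_or_ge (-4) k with hk3 | hk3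
      · have hk5 : k = -3 ∨ k = -2 ∨ k = -1 ∨ k = 0 ∨ k = 1 := by omega
        rcases hk5 with rfl | rfl | rfl | rfl | rfl
        · refine (min_le_right _ _).trans ?_
          simpa [hiN, stepHi] using h1
        · simp [hiN, stepHi]
        · simp [hiN, stepHi]
        · simp [hiN, stepHi]
        · simp [hiN, stepHi]
      · have e1 : ∀ j : ℤ, j ≤ -3 → ∀ y : St, hiN S T y j = T := fun j hj y => if_pos hj
        rw [e1 k (by omega), e1 k (by omega), e1 (k - 1) (by omega), e1 (k + 1) (by omega)]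
        exact (min_le_right _ _).trans h2
    exact_mod_cast h4
  · unfold hiN
    split_ifs
    · exact hT
    · exact min_le_left _ _
    · exact min_le_left _ _
    · exact min_le_left _ _
    · exact min_le_left _ _
    · exact le_rfl

lemma run_sound (hS : 0 < S) (hT : T ≤ S) (h2 : S - T ≤ gN d S (S - T) (S - T) (S - T))
    (h2' : gN d S T T T + 1 ≤ T) (m : ℕ) : ∀ (n : ℕ) (x y x' y' : St),
    run d S T m x y = some (x', y') → Below d S T n x → Above d S T n y →
      Below d S T (n + m) x' ∧ Above d S T (n + m) y' := by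
  induction m with
  | zero =>
    intro n x y x' y' h hx hy
    simp only [run, Option.some.injEq, Prod.mk.injEq] at h
    obtain ⟨rfl, rfl⟩ := h
    exact ⟨hx, hy⟩
  | succ m ih =>
    intro n x y x' y' h hx hy
    unfold run at h
    split_ifs at h with ht
    · simp only [tailOk, Bool.and_eq_true, decide_eq_true_eq] at ht
      have := ih (n + 1) _ _ x' y' h (hx.step hS ht.1 h2) (hy.step hS hT ht.2 h2')
      rwa [show n + (m + 1) = n + 1 + m by ring]

lemma ini_below (hS : 0 < S) : Below d S T 0 (ini S) := by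
  have hS' : (0 : ℝ) < S := by exact_mod_cast hS
  intro k
  show _ ≤ MM.D 1 k
  unfold MM.D
  by_cases hk : k < 0
  · have : loN S T (ini S) k = 0 := by
      unfold loN ini
      split_ifs <;> first | rfl | (exfalso; omega)
    rw [this, if_pos hk]
    simp
  · rw [if_neg hk]
    have h1 : loN S T (ini S) k ≤ S := by
      unfold loN ini
      split_ifs <;> first | exact le_rfl | exact Nat.zero_le _ | exact Nat.sub_le _ _
    have h2 : (loN S T (ini S) k : ℝ) / S ≤ 1 := by
      rw [div_le_one hS']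
      exact_mod_cast h1
    split_ifs <;> exact h2

lemma ini_above (hS : 0 < S) (hT : T ≤ S) : Above d S T 0 (ini S) := by
  have hS' : (0 : ℝ) < S := by exact_mod_cast hS
  refine ⟨fun k => ?_, fun k => ?_⟩
  · show MM.D 1 k ≤ _
    unfold MM.D
    by_cases hk : k < 0
    · rw [if_pos hk]
      positivity
    · have : hiN S T (ini S) k = S := by
        unfold hiN ini
        split_ifs <;> first | rfl | (exfalso; omega)
      rw [if_neg hk, this, div_self hS'.ne']
      split_ifs <;> exact le_rfl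
  · unfold hiN ini
    split_ifs <;> first | exact hT | exact Nat.zero_le _ | exact le_rfl

end states

lemma chk_sound {d S hx hy hz lx ly lz wx wy wz : ℕ} (hS : 0 < S)
    (h1 : hx ≤ S) (h2 : hy ≤ S) (h3 : hz ≤ S) (h4 : lx ≤ S) (h5 : ly ≤ S) (h6 : lz ≤ S)
    (h : chk d S hx hy hz lx ly lz wx wy wz = true) :
    d * uu d (((hx : ℝ) / S + hy / S) / 2) (((hy : ℝ) / S + hz / S) / 2) ^ (d - 1) *
    ((d * (1 - ((lx : ℝ) / S + ly / S) / 2) ^ (d - 1) * (((wx : ℝ) + wy) / 2) +
      d * (1 - ((ly : ℝ) / S + lz / S) / 2) ^ (d - 1) * (((wy : ℝ) + wz) / 2)) / 2) ≤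
      99 / 100 * wy := by
  have hS' : (0 : ℝ) < S := by exact_mod_cast hS
  simp only [chk, decide_eq_true_eq] at h
  have h' : ((100 * d ^ 2 * nN d S hx hy hz ^ (d - 1) *
    ((2 * S - (lx + ly)) ^ (d - 1) * (wx + wy) + (2 * S - (ly + lz)) ^ (d - 1) * (wy + wz)) : ℕ) : ℝ)
    ≤ ((396 * wy * (2 * (2 * S) ^ d) ^ (d - 1) * (2 * S) ^ (d - 1) : ℕ) : ℝ) := by exact_mod_cast h
  rw [uu_cast hS h1 h2 h3, avg_cast hS h4 h5, avg_cast hS h5 h6, div_pow, div_pow, div_pow]
  have q1 : (0 : ℝ) < (2 * (2 * S) ^ d) ^ (d - 1) := by positivity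
  have q2 : (0 : ℝ) < (2 * (S : ℝ)) ^ (d - 1) := by positivity
  rw [Nat.cast_mul, Nat.cast_mul, Nat.cast_mul, Nat.cast_mul, Nat.cast_mul, Nat.cast_add,
    Nat.cast_mul, Nat.cast_mul] at h'
  push_cast [-Nat.cast_sub] at h'
  generalize (nN d S hx hy hz : ℝ) ^ (d - 1) = a at *
  generalize ((2 * S - (lx + ly) : ℕ) : ℝ) ^ (d - 1) = b at *
  generalize ((2 * S - (ly + lz) : ℕ) : ℝ) ^ (d - 1) = c at *
  generalize (2 * (2 * (S : ℝ)) ^ d) ^ (d - 1) = q at *
  generalize (2 * (S : ℝ)) ^ (d - 1) = r at *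
  have e : d * (a / q) * ((d * (b / r) * (((wx : ℝ) + wy) / 2) +
      d * (c / r) * (((wy : ℝ) + wz) / 2)) / 2) =
      (d ^ 2 * a * (b * (wx + wy) + c * (wy + wz))) / (4 * (q * r)) := by
    field_simp
    ring
  rw [e, div_le_iff₀ (by positivity)]
  linarith

theorem check_sound {d S T n0 wo : ℕ} {lo hi w : St} (hc : check d S T n0 wo lo hi w = true)
    {Ω : Type*} [MeasurableSpace Ω] {P : Measure Ω}
    [IsProbabilityMeasure P] {X : List (Fin d) → Ω → ℤ} (h : Cookies P X) :
    ∀ᵐ ω ∂P, ∃ a : ℤ, ∀ᶠ n in atTop, val (fun u => X u ω) (2 * n) [] = a := by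
  simp only [check, Bool.and_eq_true, decide_eq_true_eq] at hc
  obtain ⟨⟨⟨⟨⟨⟨⟨⟨⟨⟨⟨⟨⟨⟨⟨⟨⟨⟨⟨h1, h2⟩, h3⟩, h4⟩, h5⟩, h6⟩, h7⟩, h8⟩, h9⟩, hS⟩, hT⟩, hd⟩, k1⟩, k2⟩, k3⟩,
    k4⟩, k5⟩, k6⟩, k7⟩, k8⟩ := hc
  simp only [tailOk, Bool.and_eq_true, decide_eq_true_eq] at h2
  have hS' : (0 : ℝ) < S := by exact_mod_cast hS
  have hhi : ∀ k, hiN S T hi k ≤ S := by
    intro k
    rw [leSt_iff] at h7
    obtain ⟨a1, a2, a3, a4⟩ := h7
    unfold hiN
    split_ifs <;> first | assumption | exact le_rfl
  have hrun : Below d S T n0 lo ∧ Above d S T n0 hi := by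
    generalize hr : run d S T n0 (ini S) (ini S) = r at h1
    match r, h1 with
    | some (x, y), h1 =>
      simp only [Bool.and_eq_true] at h1
      have := run_sound hS hT h3 h4 n0 0 (ini S) (ini S) x y hr (ini_below hS) (ini_above hS hT)
      rw [zero_add] at this
      exact ⟨this.1.mono hS h1.1, this.2.mono hS h1.2 hhi⟩
    | none, h1 => exact absurd h1 (by simp)
  have hall : ∀ t, Below d S T (n0 + t) lo ∧ Above d S T (n0 + t) hi := by
    intro t
    induction t with
    | zero => exact hrun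
    | succ t ih =>
      exact ⟨(ih.1.step hS h2.1 h3).mono hS h5, (ih.2.step hS hT h2.2 h4).mono hS h6 hhi⟩
  have hlo : ∀ k, loN S T lo k ≤ S := fun k => hrun.1.le_S hS k
  refine box (lo := fun k => (loN S T lo k : ℝ) / S) (hi := fun k => (hiN S T hi k : ℝ) / S)
    (w := fun k => (wN wo w k : ℝ)) (n0 := n0) (l := 99 / 100) (wmin := 1)
    (wmax := ((wo + w.a + w.b + w.c + w.e : ℕ) : ℝ)) hd h ?_ ?_ ?_ (by norm_num) (by norm_num) ?_
    one_pos ?_ ?_
  · intro n hn k
    obtain ⟨t, rfl⟩ := Nat.exists_eq_add_of_le hn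
    exact (hall t).1 k
  · intro n hn k
    obtain ⟨t, rfl⟩ := Nat.exists_eq_add_of_le hn
    exact (hall t).2.1 k
  · intro k
    rw [div_le_one hS']
    exact_mod_cast hhi k
  · intro k
    rw [leSt_iff] at h8
    obtain ⟨a1, a2, a3, a4⟩ := h8
    have : 1 ≤ wN wo w k := by
      unfold wN
      split_ifs <;> assumption
    exact_mod_cast this
  · intro k
    have : wN wo w k ≤ wo + w.a + w.b + w.c + w.e := by
      unfold wN
      split_ifs <;> omega
    exact_mod_cast this
  · intro k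
    have key : chkAt d S T wo lo hi w k = true := by
      rcases lt_or_ge k (-3) with hk | hk
      · have e1 : ∀ j : ℤ, j ≤ -3 → ∀ y : St, hiN S T y j = T := fun j hj y => if_pos hj
        have e2 : ∀ j : ℤ, j ≤ -3 → ∀ y : St, loN S T y j = 0 := fun j hj y => if_pos hj
        have e3 : ∀ j : ℤ, j ≤ -3 → ∀ y : St, wN wo y j = wo := fun j hj y => if_pos hj
        have : chkAt d S T wo lo hi w k = chkAt d S T wo lo hi w (-4) := by
          unfold chkAt
          rw [e1 (k - 1) (by omega), e1 k (by omega), e1 (k + 1) (by omega),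
            e2 (k - 1) (by omega), e2 k (by omega), e2 (k + 1) (by omega),
            e3 (k - 1) (by omega), e3 k (by omega), e3 (k + 1) (by omega),
            e1 (-4 - 1) (by omega), e1 (-4) (by omega), e1 (-4 + 1) (by omega),
            e2 (-4 - 1) (by omega), e2 (-4) (by omega), e2 (-4 + 1) (by omega),
            e3 (-4 - 1) (by omega), e3 (-4) (by omega), e3 (-4 + 1) (by omega)]
        rw [this]; exact k1
      rcases lt_or_ge 2 k with hk2 | hk2
      · have e1 : ∀ j : ℤ, 2 ≤ j → ∀ y : St, hiN S T y j = S := by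
          intro j hj y
          unfold hiN
          rw [if_neg (by omega), if_neg (by omega), if_neg (by omega), if_neg (by omega),
            if_neg (by omega)]
        have e2 : ∀ j : ℤ, 2 ≤ j → ∀ y : St, loN S T y j = S - T := by
          intro j hj y
          unfold loN
          rw [if_neg (by omega), if_neg (by omega), if_neg (by omega), if_neg (by omega),
            if_neg (by omega)]
        have e3 : ∀ j : ℤ, 2 ≤ j → ∀ y : St, wN wo y j = wo := by
          intro j hj y
          unfold wN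
          rw [if_neg (by omega), if_neg (by omega), if_neg (by omega), if_neg (by omega),
            if_neg (by omega)]
        have : chkAt d S T wo lo hi w k = chkAt d S T wo lo hi w 3 := by
          unfold chkAt
          rw [e1 (k - 1) (by omega), e1 k (by omega), e1 (k + 1) (by omega),
            e2 (k - 1) (by omega), e2 k (by omega), e2 (k + 1) (by omega),
            e3 (k - 1) (by omega), e3 k (by omega), e3 (k + 1) (by omega),
            e1 (3 - 1) (by omega), e1 3 (by omega), e1 (3 + 1) (by omega),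
            e2 (3 - 1) (by omega), e2 3 (by omega), e2 (3 + 1) (by omega),
            e3 (3 - 1) (by omega), e3 3 (by omega), e3 (3 + 1) (by omega)]
        rw [this]; exact k8
      have hk5 : k = -3 ∨ k = -2 ∨ k = -1 ∨ k = 0 ∨ k = 1 ∨ k = 2 := by omega
      rcases hk5 with rfl | rfl | rfl | rfl | rfl | rfl
      · exact k2
      · exact k3
      · exact k4
      · exact k5
      · exact k6
      · exact k7
    exact chk_sound hS (hhi _) (hhi _) (hhi _) (hlo _) (hlo _) (hlo _) key

end Pool.Agent.R975.AS
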