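import Mathlib
import Pool.Agent.R975.AS.Cert

/-! Noisy min-max game on the `d`-ary tree: almost sure convergence for all `d ≥ 3`. -/

set_option autoImplicit false

namespace Pool.Agent.R975.AS

open Set Filter Topology MeasureTheory ProbabilityTheory

set_option maxRecDepth 100000 in
lemma check3 : check 3 100000000 100 119 10 ⟨114645, 14814288, 79077856, 99823947⟩
    ⟨117415, 14934107, 79237857, 99828165⟩ ⟨32, 748, 1000, 31⟩ = true := by decide +kernel

set_option maxRecDepth 100000 in
lemma check4 : check 4 100000000 100 12 10 ⟨3364, 8126212, 84132709, 99991954⟩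
    ⟨3994, 8435035, 84732710, 99993334⟩ ⟨30, 514, 1000, 30⟩ = true := by decide +kernel

set_option maxRecDepth 100000 in
lemma check5 : check 5 100000000 100 5 10 ⟨24, 4039807, 89767287, 99999902⟩
    ⟨40, 4242242, 90367288, 99999944⟩ ⟨30, 337, 1000, 30⟩ = true := by decide +kernel

set_option maxRecDepth 100000 in
lemma check6 : check 6 100000000 100 3 10 ⟨0, 1883881, 93991624, 99999996⟩
    ⟨4, 2015509, 94591625, 100000000⟩ ⟨30, 219, 1000, 30⟩ = true := by decide +kernel

theorem main {d : ℕ} (hd : 3 ≤ d) {Ω : Type*} [MeasurableSpace Ω] {P : Measure Ω}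
    [IsProbabilityMeasure P] {X : List (Fin d) → Ω → ℤ} (h : Cookies P X) :
    ∀ᵐ ω ∂P, ∃ a : ℤ, ∀ᶠ n in atTop, val (fun u => X u ω) (2 * n) [] = a := by
  rcases lt_or_ge d 7 with h7 | h7
  · have h4 : d = 3 ∨ d = 4 ∨ d = 5 ∨ d = 6 := by omega
    rcases h4 with rfl | rfl | rfl | rfl
    · exact check_sound check3 h
    · exact check_sound check4 h
    · exact check_sound check5 h
    · exact check_sound check6 h
  · exact large h7 h

end Pool.Agent.R975.AS
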